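import Pool.Agent.H37.LT.Defs

/-!
# Module Coef: bounds of the coefficients

`q = qd α β κ`, `q ≤ C` on `‖v‖ ≤ 2R`, `c₀ ≤ ∫_{‖v‖≤R} exp q`. `V = (2R)^d` = volume of the ball (`Real.volume_pi_closedBall`). Let `λ = c₀/(2V)`, `S = {‖v‖ ≤ R, exp q ≥ λ}`; `c₀ ≤ λ V + e^C vol S`, so `vol S ≥ c₀/(2e^C) =: c₂ > 0`. With `r > 0`, `(2r)^d < c₂` (`r ≤ 1`, `(2r)^d ≤ 2r`... for `d ≥ 1`): `S` is not contained in a ball of radius `r` (sup norm) around one of its points `p₀`: there is `p₁ ∈ S`, `‖p₁ - p₀‖ > r`, so `nsq (p₁-p₀) ≥ r²`. `q(p₀), q(p₁) ≥ -C' := log λ`.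
`κ ≥ -K₁`: midpoint `p = (p₀+p₁)/2`, `‖p‖ ≤ R`: `q(p) = (q(p₀)+q(p₁))/2 - (κ/4) nsq(p₁-p₀)`, so `-κ r²/4 ≤ C - log λ`.
`κ ≤ K₁`: `h = R e_i` (any `i`): `q(p₀+h) + q(p₀-h) - 2q(p₀) = 2κ R²`, `‖p₀ ± h‖ ≤ 2R`: `2κR² ≤ 2C - 2 log λ`.
`β`: `q(p₀+h) - q(p₀) = β_i R + κ (2 R p₀_i + R²)`, `h = ±R e_i`, `≤ C - log λ`: `|β_i| R ≤ C - log λ + 3|κ|R²`. `α = q(p₀) - β·p₀ - κ|p₀|²`: bounded, with `log λ ≤ q(p₀) ≤ C`.
-/

set_option autoImplicit false

open MeasureTheory Set Filter Topology Pool.Agent.H25.Kin Pool.Agent.H37.LT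

namespace Pool.Agent.H37.SB

variable {d : ℕ}

private lemma Coef_nsq_ge (z : Vec d) {r : ℝ} (hr : 0 ≤ r) (h : r < ‖z‖) : r ^ 2 ≤ nsq z := by
  have h1 : ‖z‖ ^ 2 ≤ nsq z := by
    have h0 : 0 ≤ nsq z := Finset.sum_nonneg fun i _ => sq_nonneg _
    have h2 : ‖z‖ ≤ Real.sqrt (nsq z) := by
      refine (pi_norm_le_iff_of_nonneg (Real.sqrt_nonneg _)).2 fun i => ?_
      rw [Real.norm_eq_abs]
      refine Real.abs_le_sqrt ?_
      exact Finset.single_le_sum (f := fun i => z i ^ 2) (fun i _ => sq_nonneg _)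
        (Finset.mem_univ i)
    calc ‖z‖ ^ 2 ≤ Real.sqrt (nsq z) ^ 2 := pow_le_pow_left₀ (norm_nonneg _) h2 2
      _ = nsq z := Real.sq_sqrt h0
  exact (pow_le_pow_left₀ hr h.le 2).trans h1

/-- the parallelogram identity -/
private lemma Coef_par (α κ : ℝ) (β v h : Vec d) :
    qd α β κ (v + h) + qd α β κ (v - h) = 2 * qd α β κ v + 2 * κ * nsq h := by
  unfold Pool.Agent.H37.LT.qd dot nsq
  have e1 : ∑ i, β i * (v + h) i + ∑ i, β i * (v - h) i = 2 * ∑ i, β i * v i := by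
    rw [← Finset.sum_add_distrib, Finset.mul_sum]
    refine Finset.sum_congr rfl fun i _ => ?_
    simp only [Pi.add_apply, Pi.sub_apply]
    ring
  have e2 : ∑ i, (v + h) i ^ 2 + ∑ i, (v - h) i ^ 2 = 2 * ∑ i, v i ^ 2 + 2 * ∑ i, h i ^ 2 := by
    rw [← Finset.sum_add_distrib, Finset.mul_sum, Finset.mul_sum, ← Finset.sum_add_distrib]
    refine Finset.sum_congr rfl fun i _ => ?_
    simp only [Pi.add_apply, Pi.sub_apply]
    ring
  linear_combination e1 + κ * e2

/-- increments along a coordinate direction -/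
private lemma Coef_inc (α κ : ℝ) (β v : Vec d) (i : Fin d) (s : ℝ) :
    qd α β κ (v + Pi.single i s) = qd α β κ v + β i * s + κ * (2 * s * v i + s ^ 2) := by
  unfold Pool.Agent.H37.LT.qd dot nsq
  have e1 : ∑ j, β j * (v + Pi.single i s : Vec d) j = ∑ j, β j * v j + β i * s := by
    have : ∀ j, β j * (v + Pi.single i s : Vec d) j =
        β j * v j + (if j = i then β i * s else 0) := by
      intro j
      by_cases h : j = i
      · subst h
        simp [mul_add]
      · simp [h]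
    rw [Finset.sum_congr rfl fun j _ => this j, Finset.sum_add_distrib]
    simp
  have e2 : ∑ j, (v + Pi.single i s : Vec d) j ^ 2 = ∑ j, v j ^ 2 + (2 * s * v i + s ^ 2) := by
    have : ∀ j, (v + Pi.single i s : Vec d) j ^ 2 =
        v j ^ 2 + (if j = i then 2 * s * v i + s ^ 2 else 0) := by
      intro j
      by_cases h : j = i
      · subst h
        simp
        ring
      · simp [h]
    rw [Finset.sum_congr rfl fun j _ => this j, Finset.sum_add_distrib]
    simp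
  rw [e1, e2]
  ring

private lemma Coef_set (hd : 1 ≤ d) {R C c₀ : ℝ} (hR : 0 < R) (hc : 0 < c₀) :
    ∃ r B : ℝ, 0 < r ∧ ∀ q : Vec d → ℝ, Continuous q → (∀ v : Vec d, ‖v‖ ≤ R → q v ≤ C) →
      c₀ ≤ ∫ v in Metric.closedBall (0 : Vec d) R, Real.exp (q v) →
      ∃ p₀ p₁ : Vec d, ‖p₀‖ ≤ R ∧ ‖p₁‖ ≤ R ∧ B ≤ q p₀ ∧ B ≤ q p₁ ∧ r < ‖p₁ - p₀‖ := by
  have hV : ∀ (a : Vec d) {s : ℝ}, 0 ≤ s →
      (volume : Measure (Vec d)).real (Metric.closedBall a s) = (2 * s) ^ d := by
    intro a s hs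
    rw [Measure.real, Real.volume_pi_closedBall a hs, ENNReal.toReal_ofReal (by positivity),
      Fintype.card_fin]
  set V : ℝ := (2 * R) ^ d with hVdef
  have hVp : 0 < V := by positivity
  set lam : ℝ := c₀ / (2 * V) with hlam
  have hlp : 0 < lam := by positivity
  set r : ℝ := min (1 / 2) (c₀ / (8 * Real.exp C)) with hr
  have hrp : 0 < r := lt_min (by norm_num) (by positivity)
  refine ⟨r, Real.log lam, hrp, fun q hq hqC hint => ?_⟩
  set B : Set (Vec d) := Metric.closedBall (0 : Vec d) R with hB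
  set S : Set (Vec d) := B ∩ {v | lam ≤ Real.exp (q v)} with hS
  have hBm : MeasurableSet B := Metric.isClosed_closedBall.measurableSet
  have hBc : IsCompact B := isCompact_closedBall _ _
  have hSm : MeasurableSet S :=
    hBm.inter (measurableSet_le measurable_const (hq.rexp.measurable))
  have hSfin : (volume : Measure (Vec d)) S ≠ ⊤ :=
    ne_top_of_le_ne_top hBc.measure_lt_top.ne (measure_mono inter_subset_left)
  have hi1 : IntegrableOn (fun v => Real.exp (q v)) B :=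
    (hq.rexp.continuousOn).integrableOn_compact hBc
  have hi2 : IntegrableOn (fun _ : Vec d => lam) B :=
    integrableOn_const hBc.measure_lt_top.ne
  have hi3 : IntegrableOn (S.indicator fun _ : Vec d => Real.exp C) B :=
    (integrableOn_const hBc.measure_lt_top.ne).indicator hSm
  have h1 : ∫ v in B, Real.exp (q v) ≤
      ∫ v in B, (lam + S.indicator (fun _ => Real.exp C) v) := by
    refine setIntegral_mono_on hi1 (hi2.add hi3) hBm fun v hv => ?_
    by_cases hvS : v ∈ S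
    · rw [indicator_of_mem hvS]
      have h2 : q v ≤ C := hqC v (by simpa [hB] using hv)
      have h3 := Real.exp_le_exp.2 h2
      linarith
    · rw [indicator_of_notMem hvS, add_zero]
      have h2 : ¬ lam ≤ Real.exp (q v) := fun h => hvS ⟨hv, h⟩
      exact (not_le.1 h2).le
  have h2 : ∫ v in B, (lam + S.indicator (fun _ => Real.exp C) v) =
      V * lam + (volume : Measure (Vec d)).real S * Real.exp C := by
    rw [integral_add hi2 hi3, setIntegral_const, setIntegral_indicator hSm,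
      inter_eq_self_of_subset_right (inter_subset_left : S ⊆ B), setIntegral_const, hV 0 hR.le,
      smul_eq_mul, smul_eq_mul]
  have h3 : V * lam = c₀ / 2 := by
    rw [hlam]
    field_simp
  have h4 : c₀ / 2 ≤ (volume : Measure (Vec d)).real S * Real.exp C := by
    rw [h2, h3] at h1
    linarith
  have h5 : ∀ p : Vec d, ¬ S ⊆ Metric.closedBall p r := by
    intro p hp
    have h6 : (volume : Measure (Vec d)).real S ≤ (2 * r) ^ d := by
      rw [← hV p hrp.le]
      exact measureReal_mono hp (isCompact_closedBall _ _).measure_lt_top.ne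
    have h7 : (2 * r) ^ d ≤ 2 * r := by
      have h8 : 2 * r ≤ 1 := by
        have := min_le_left (1 / 2 : ℝ) (c₀ / (8 * Real.exp C))
        linarith
      calc (2 * r) ^ d ≤ (2 * r) ^ 1 := pow_le_pow_of_le_one (by positivity) h8 hd
        _ = 2 * r := pow_one _
    have h9 : r ≤ c₀ / (8 * Real.exp C) := min_le_right _ _
    have h10 : r * Real.exp C ≤ c₀ / 8 := by
      have h11 := mul_le_mul_of_nonneg_right h9 (Real.exp_pos C).le
      have h12 : c₀ / (8 * Real.exp C) * Real.exp C = c₀ / 8 := by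
        field_simp
      linarith
    have h13 := mul_le_mul_of_nonneg_right (h6.trans h7) (Real.exp_pos C).le
    linarith
  have h6 : S.Nonempty := by
    by_contra h
    rw [not_nonempty_iff_eq_empty] at h
    exact h5 0 (by rw [h]; exact empty_subset _)
  obtain ⟨p₀, hp₀⟩ := h6
  obtain ⟨p₁, hp₁, hp₁'⟩ := not_subset.1 (h5 p₀)
  refine ⟨p₀, p₁, by simpa [hB] using hp₀.1, by simpa [hB] using hp₁.1, ?_, ?_, ?_⟩
  · exact (Real.log_le_iff_le_exp hlp).2 hp₀.2
  · exact (Real.log_le_iff_le_exp hlp).2 hp₁.2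
  · rw [Metric.mem_closedBall, not_le, dist_eq_norm] at hp₁'
    exact hp₁'

theorem coef (hd : 1 ≤ d) {R C c₀ : ℝ} (hR : 0 < R) (hc : 0 < c₀) : ∃ C₁ : ℝ, 0 ≤ C₁ ∧
    ∀ (α κ : ℝ) (β : Vec d), (∀ v : Vec d, ‖v‖ ≤ 2 * R → qd α β κ v ≤ C) →
      c₀ ≤ ∫ v in Metric.closedBall (0 : Vec d) R, Real.exp (qd α β κ v) →
      |α| ≤ C₁ ∧ |κ| ≤ C₁ ∧ ∀ i, |β i| ≤ C₁ := by
  obtain ⟨r, B, hr, hset⟩ := Coef_set hd (C := C) hR hc
  set D : ℝ := |C - B| with hD
  have hD0 : 0 ≤ D := abs_nonneg _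
  set K : ℝ := 4 * D / r ^ 2 + D / R ^ 2 with hK
  have hK0 : 0 ≤ K := by positivity
  set K₂ : ℝ := (D + 3 * K * R ^ 2) / R with hK₂
  have hK₂0 : 0 ≤ K₂ := by positivity
  set K₃ : ℝ := |C| + |B| + d * (K₂ * R) + K * (d * R ^ 2) with hK₃
  have hK₃0 : 0 ≤ K₃ := by positivity
  refine ⟨K + K₂ + K₃, by positivity, fun α κ β hq hint => ?_⟩
  have hcq : Continuous fun v : Vec d => qd α β κ v := by
    unfold Pool.Agent.H37.LT.qd dot nsq
    fun_prop
  obtain ⟨p₀, p₁, hp₀, hp₁, hB₀, hB₁, hp⟩ := hset (fun v => qd α β κ v) hcq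
    (fun v hv => hq v (by linarith)) hint
  have hCB : C - B ≤ D := le_abs_self _
  have hq0 : qd α β κ p₀ ≤ C := hq p₀ (by linarith)
  -- the coordinates of `p₀`
  have hp0i : ∀ i, |p₀ i| ≤ R := fun i => by
    rw [← Real.norm_eq_abs]
    exact (norm_le_pi_norm p₀ i).trans hp₀
  have hns : ∀ (i : Fin d) (s : ℝ), |s| ≤ R → ‖p₀ + Pi.single i s‖ ≤ 2 * R := by
    intro i s hs
    refine (norm_add_le _ _).trans ?_
    have : ‖(Pi.single i s : Vec d)‖ ≤ R := by
      rw [Pi.norm_single, Real.norm_eq_abs]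
      exact hs
    linarith
  -- lower bound of `κ`
  have hκ1 : -(4 * D / r ^ 2) ≤ κ := by
    by_contra hcon
    push Not at hcon
    set h : Vec d := (1 / 2 : ℝ) • (p₁ - p₀) with hh
    have e1 : (1 / 2 : ℝ) • (p₀ + p₁) + h = p₁ := by
      rw [hh]
      ext i
      simp only [Pi.add_apply, Pi.smul_apply, Pi.sub_apply, smul_eq_mul]
      ring
    have e2 : (1 / 2 : ℝ) • (p₀ + p₁) - h = p₀ := by
      rw [hh]
      ext i
      simp only [Pi.add_apply, Pi.smul_apply, Pi.sub_apply, smul_eq_mul]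
      ring
    have h1 := Coef_par α κ β ((1 / 2 : ℝ) • (p₀ + p₁)) h
    rw [e1, e2] at h1
    have h2 : qd α β κ ((1 / 2 : ℝ) • (p₀ + p₁)) ≤ C := by
      refine hq _ ?_
      rw [norm_smul, Real.norm_eq_abs, abs_of_pos (by norm_num : (0 : ℝ) < 1 / 2)]
      have := norm_add_le p₀ p₁
      linarith
    have h3 : nsq h = 1 / 4 * nsq (p₁ - p₀) := by
      rw [hh, nsq_smul]
      norm_num
    have h4 := Coef_nsq_ge (p₁ - p₀) hr.le hp
    have h5 : -(2 * D) ≤ 2 * κ * nsq h := by linarith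
    have h6 : 0 < r ^ 2 := by positivity
    have hκneg : κ < 0 := by
      have : 0 ≤ 4 * D / r ^ 2 := by positivity
      linarith
    have h7 : κ * nsq (p₁ - p₀) ≤ κ * r ^ 2 := mul_le_mul_of_nonpos_left h4 hκneg.le
    have h8 : κ * r ^ 2 < -(4 * D / r ^ 2) * r ^ 2 := mul_lt_mul_of_pos_right hcon h6
    have h9 : -(4 * D / r ^ 2) * r ^ 2 = -(4 * D) := by
      field_simp
    rw [h3] at h5
    nlinarith
  -- upper bound of `κ`
  have hκ2 : κ ≤ D / R ^ 2 := by
    rw [le_div_iff₀ (by positivity)]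
    let i : Fin d := ⟨0, hd⟩
    have h1 := Coef_inc α κ β p₀ i R
    have h2 := Coef_inc α κ β p₀ i (-R)
    have h3 := hq _ (hns i R (abs_of_pos hR).le)
    have h4 := hq _ (hns i (-R) (by rw [abs_neg]; exact (abs_of_pos hR).le))
    nlinarith
  have hκ : |κ| ≤ K := by
    rw [abs_le]
    have h1 : 0 ≤ 4 * D / r ^ 2 := by positivity
    have h2 : 0 ≤ D / R ^ 2 := by positivity
    exact ⟨by linarith, by linarith⟩
  -- the vector `β`
  have hβ : ∀ i, |β i| ≤ K₂ := by
    intro i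
    have key : ∀ s : ℝ, |s| = R → β i * s ≤ D + 3 * K * R ^ 2 := by
      intro s hs
      have h1 := Coef_inc α κ β p₀ i s
      have h2 := hq _ (hns i s hs.le)
      have h3 : |κ * (2 * s * p₀ i + s ^ 2)| ≤ K * (3 * R ^ 2) := by
        rw [abs_mul]
        refine mul_le_mul hκ ?_ (abs_nonneg _) hK0
        refine (abs_add_le _ _).trans ?_
        rw [abs_mul, abs_mul, abs_two, hs, abs_pow, hs]
        have := mul_le_mul_of_nonneg_left (hp0i i) (by positivity : (0 : ℝ) ≤ 2 * R)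
        nlinarith
      have h4 := (abs_le.1 h3).1
      linarith
    rw [hK₂, le_div_iff₀ hR]
    rcases abs_cases (β i) with ⟨h, _⟩ | ⟨h, _⟩
    · rw [h]
      exact key R (abs_of_pos hR)
    · rw [h]
      have := key (-R) (by rw [abs_neg]; exact abs_of_pos hR)
      linarith
  -- the number `α`
  have hα : |α| ≤ K₃ := by
    have e : α = qd α β κ p₀ - dot β p₀ - κ * nsq p₀ := by
      unfold Pool.Agent.H37.LT.qd
      ring
    have h1 : |qd α β κ p₀| ≤ |C| + |B| := by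
      rw [abs_le]
      have := neg_abs_le B
      have := le_abs_self C
      have := abs_nonneg B
      have := abs_nonneg C
      exact ⟨by linarith, by linarith⟩
    have h2 : |dot β p₀| ≤ d * (K₂ * R) := by
      unfold dot
      refine (Finset.abs_sum_le_sum_abs _ _).trans ?_
      refine (Finset.sum_le_sum fun i _ => ?_ : _ ≤ ∑ _i : Fin d, K₂ * R).trans ?_
      · rw [abs_mul]
        exact mul_le_mul (hβ i) (hp0i i) (abs_nonneg _) hK₂0
      · rw [Finset.sum_const, Finset.card_univ, Fintype.card_fin, nsmul_eq_mul]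
    have h3 : |κ * nsq p₀| ≤ K * (d * R ^ 2) := by
      rw [abs_mul]
      refine mul_le_mul hκ ?_ (abs_nonneg _) hK0
      unfold nsq
      rw [abs_of_nonneg (Finset.sum_nonneg fun i _ => sq_nonneg _)]
      refine (Finset.sum_le_sum fun i _ => ?_ : _ ≤ ∑ _i : Fin d, R ^ 2).trans ?_
      · rw [← sq_abs]
        exact pow_le_pow_left₀ (abs_nonneg _) (hp0i i) 2
      · rw [Finset.sum_const, Finset.card_univ, Fintype.card_fin, nsmul_eq_mul]
    rw [abs_le] at h1 h2 h3 ⊢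
    exact ⟨by linarith [h1.1, h2.2, h3.2], by linarith [h1.2, h2.1, h3.1]⟩
  refine ⟨by linarith, by linarith, fun i => ?_⟩
  have := hβ i
  linarith

end Pool.Agent.H37.SB
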