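import Pool.Agent.H37.SB.Quad
import Pool.Agent.H37.SB.Coef
import Pool.Agent.H37.LT.PrC

/-!
# Module Cmp: the combination: `SliceEps d`

`μ = mx a k u = exp(qd αμ βμ (-k))`, `βμ = 2k u`, `αμ = log a - k|u|²`.
Order of the constants: `R₀` with `∫_{‖v‖>R₀} G ≤ m/4` for all `G` in `SC Cl m` (and `R₀ ≥ 1`); `C₀` of `quad_G`; `coef` with `R = R₀`, `C = C₀ + 2 d (2R₀)²`, `c₀ = m/2`: `C₁`. `h = qd α β κ - log μ = qd α'' β'' κ''` with coefficients `≤ C₂ = C₁ + |αμ| + k + ∑|βμ|`. Given `ε`: `δ` small; `R ≥ 2 R₀` large; `ε₁ ≤ m/4` small; `η` small.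
1. `∫_{‖v‖≤R₀} exp q ≥ ∫_{‖v‖≤R₀} G - ε₁ ≥ m/2`; `q ≤ C` on `‖v‖ ≤ 2R₀ ≤ R`: coefficients `≤ C₁`.
2. `B` = ball of radius `R`, `M = exp q`. `|M - μ| ≤ (δ/2) (M + μ) + (1/(2δ)) (M-μ)(log M - log μ)` pointwise, and `∫_B (M-μ)(log M - log μ) = ∫_B (M-G) h + ∫ (G-μ) h - ∫_{Bᶜ} (G-μ) h`. `|h| ≤ C₂ (1+d) (1+‖v‖)²`: first `≤ C₂(1+d)(1+R)² ε₁`; second `= α''(∫G-∫μ) + ∑β''_i(..) + κ''(..)`, `≤ C₂ md G μ`; third `≤ C₂ (1+d) ∫_{Bᶜ} (G+μ)(1+‖v‖)² ≤ C/(1+R)`.
3. `∫_B M ≤ ∫ G + ε₁ ≤ C`. So `∫ |G-μ| ≤ ∫_B |G-M| + ∫_B |M-μ| + ∫_{Bᶜ} (G+μ)` is small.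
-/

set_option autoImplicit false

open MeasureTheory Set Filter Topology Pool.Agent.H25.Kin Pool.Agent.H37.LT
open Pool.Agent.H15.AV (gau UNice)
open Pool.Agent.H48.NE (mx)

namespace Pool.Agent.H37.SB

variable {d : ℕ}

private lemma Cmp_int {F : Vec d → ℝ} (hF : Continuous F) {c : ℝ}
    (h : ∀ v, (1 + ‖v‖) ^ (d + 1) * |F v| ≤ c) : Integrable F := by
  refine Integrable.mono' ((integrable_wt (d := d)).const_mul c) hF.aestronglyMeasurable
    (Eventually.of_forall fun v => ?_)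
  have hn := norm_nonneg v
  have hp : 0 < (1 + ‖v‖) ^ (d + 1) := by positivity
  rw [Real.norm_eq_abs]
  unfold wt
  rw [← div_eq_mul_inv, le_div_iff₀ hp, mul_comm]
  exact h v

private lemma Cmp_ints {Cl : ℕ → ℝ} {F : Vec d → ℝ} (hF : Continuous F) (h0 : ∀ v, 0 ≤ F v)
    (h : ∀ (N : ℕ) (v : Vec d), (1 + ‖v‖) ^ N * F v ≤ Cl N) :
    Integrable F ∧ (∀ i, Integrable fun v => F v * v i) ∧ (Integrable fun v => F v * nsq v) ∧
      Integrable fun v => (1 + ‖v‖) ^ 2 * F v := by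
  refine ⟨Cmp_int hF (c := Cl (d + 1)) fun v => ?_,
    fun i => Cmp_int (hF.mul (continuous_apply i)) (c := Cl (d + 2)) fun v => ?_,
    Cmp_int (hF.mul continuous_sq) (c := d * Cl (d + 3)) fun v => ?_,
    Cmp_int (((continuous_const.add continuous_norm).pow 2).mul hF) (c := Cl (d + 3)) fun v => ?_⟩
  · rw [abs_of_nonneg (h0 v)]
    exact h _ v
  · have hn := norm_nonneg v
    have h1 : |v i| ≤ 1 + ‖v‖ := by
      have h2 := norm_le_pi_norm v i
      rw [Real.norm_eq_abs] at h2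
      linarith
    have h3 := h0 v
    rw [abs_mul, abs_of_nonneg h3]
    calc (1 + ‖v‖) ^ (d + 1) * (F v * |v i|) ≤ (1 + ‖v‖) ^ (d + 1) * (F v * (1 + ‖v‖)) := by
          gcongr
      _ = (1 + ‖v‖) ^ (d + 2) * F v := by ring
      _ ≤ _ := h _ v
  · have hn := norm_nonneg v
    have h1 : nsq v ≤ d * (1 + ‖v‖) ^ 2 := by
      have h2 := sq_le v
      have h4 : (0 : ℝ) ≤ d := Nat.cast_nonneg _
      nlinarith [mul_nonneg h4 hn]
    have h3 := h0 v
    have h5 := sq_nonneg' v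
    rw [abs_mul, abs_of_nonneg h3, abs_of_nonneg h5]
    calc (1 + ‖v‖) ^ (d + 1) * (F v * nsq v) ≤
          (1 + ‖v‖) ^ (d + 1) * (F v * (d * (1 + ‖v‖) ^ 2)) := by
          gcongr
      _ = d * ((1 + ‖v‖) ^ (d + 3) * F v) := by ring
      _ ≤ _ := mul_le_mul_of_nonneg_left (h _ v) (Nat.cast_nonneg _)
  · have hn := norm_nonneg v
    rw [abs_of_nonneg (mul_nonneg (by positivity) (h0 v))]
    calc (1 + ‖v‖) ^ (d + 1) * ((1 + ‖v‖) ^ 2 * F v) = (1 + ‖v‖) ^ (d + 3) * F v := by ring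
      _ ≤ _ := h _ v

/-- bound of the tails -/
private noncomputable def Cmp_T (d : ℕ) (Cl : ℕ → ℝ) : ℝ := |Cl (3 + (d + 1))| * ∫ v, wt d v

private lemma Cmp_T_nonneg (d : ℕ) (Cl : ℕ → ℝ) : 0 ≤ Cmp_T d Cl :=
  mul_nonneg (abs_nonneg _) (integral_nonneg fun v => wt_nonneg v)

private lemma Cmp_tail {Cl : ℕ → ℝ} {F : Vec d → ℝ} (hF : Continuous F) (h0 : ∀ v, 0 ≤ F v)
    (h : ∀ (N : ℕ) (v : Vec d), (1 + ‖v‖) ^ N * F v ≤ Cl N) {R : ℝ} (hR : 0 ≤ R) :
    ∫ v in (Metric.closedBall (0 : Vec d) R)ᶜ, (1 + ‖v‖) ^ 2 * F v ≤ Cmp_T d Cl / (1 + R) := by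
  have hi := (Cmp_ints hF h0 h).2.2.2
  have hR1 : 0 < 1 + R := by linarith
  have hg : Integrable fun v : Vec d => |Cl (3 + (d + 1))| / (1 + R) * wt d v :=
    integrable_wt.const_mul _
  have h1 : ∫ v in (Metric.closedBall (0 : Vec d) R)ᶜ, (1 + ‖v‖) ^ 2 * F v ≤
      ∫ v in (Metric.closedBall (0 : Vec d) R)ᶜ, |Cl (3 + (d + 1))| / (1 + R) * wt d v := by
    refine setIntegral_mono_on hi.integrableOn hg.integrableOn
      Metric.isClosed_closedBall.measurableSet.compl fun v hv => ?_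
    have hv' : R < ‖v‖ := by
      rw [mem_compl_iff, mem_closedBall_zero_iff, not_le] at hv
      exact hv
    have hn := w_pos v
    have h2 := (h (3 + (d + 1)) v).trans (le_abs_self _)
    have hF0 := h0 v
    unfold wt
    rw [div_mul_eq_mul_div, ← div_eq_mul_inv, div_div, le_div_iff₀ (by positivity)]
    calc (1 + ‖v‖) ^ 2 * F v * ((1 + ‖v‖) ^ (d + 1) * (1 + R))
        ≤ (1 + ‖v‖) ^ 2 * F v * ((1 + ‖v‖) ^ (d + 1) * (1 + ‖v‖)) := by
          gcongr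
      _ = (1 + ‖v‖) ^ (3 + (d + 1)) * F v := by ring
      _ ≤ _ := h2
  have h3 : ∫ v in (Metric.closedBall (0 : Vec d) R)ᶜ, |Cl (3 + (d + 1))| / (1 + R) * wt d v ≤
      ∫ v, |Cl (3 + (d + 1))| / (1 + R) * wt d v :=
    setIntegral_le_integral hg (Eventually.of_forall fun v =>
      mul_nonneg (div_nonneg (abs_nonneg _) hR1.le) (wt_nonneg v))
  refine (h1.trans h3).trans (le_of_eq ?_)
  rw [integral_const_mul]
  unfold Cmp_T
  ring

private lemma Cmp_mass {Cl : ℕ → ℝ} {F : Vec d → ℝ} (hF : Continuous F) (h0 : ∀ v, 0 ≤ F v)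
    (h : ∀ (N : ℕ) (v : Vec d), (1 + ‖v‖) ^ N * F v ≤ Cl N) :
    ∫ v, F v ≤ |Cl (d + 1)| * ∫ v, wt d v := by
  rw [← integral_const_mul]
  refine integral_mono (Cmp_ints hF h0 h).1 (integrable_wt.const_mul _) fun v => ?_
  have hn := norm_nonneg v
  have hp : 0 < (1 + ‖v‖) ^ (d + 1) := by positivity
  show F v ≤ |Cl (d + 1)| * wt d v
  unfold wt
  rw [← div_eq_mul_inv, le_div_iff₀ hp, mul_comm]
  exact (h _ v).trans (le_abs_self _)

private lemma Cmp_exp0 {p q δ : ℝ} (hδ : 0 < δ) (hpq : q ≤ p) :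
    |Real.exp p - Real.exp q| ≤ δ / 2 * (Real.exp p + Real.exp q) +
      1 / (2 * δ) * ((Real.exp p - Real.exp q) * (p - q)) := by
  have hX := Real.exp_pos p
  have hY := Real.exp_pos q
  have hD : 0 ≤ Real.exp p - Real.exp q := sub_nonneg.2 (Real.exp_le_exp.2 hpq)
  have h1 : Real.exp p - Real.exp q ≤ Real.exp p * (p - q) := by
    have h2 := Real.add_one_le_exp (q - p)
    rw [Real.exp_sub, le_div_iff₀ hX] at h2
    linarith
  rw [abs_of_nonneg hD]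
  generalize Real.exp p = X at *
  generalize Real.exp q = Y at *
  have h2 : (X - Y) * (X - Y) ≤ (X - Y) * (X * (p - q)) := mul_le_mul_of_nonneg_left h1 hD
  have h3 : 2 * δ * (X - Y) ≤ δ ^ 2 * X + (X - Y) * (p - q) := by
    have h4 : 2 * δ * (X - Y) * X ≤ (δ ^ 2 * X + (X - Y) * (p - q)) * X := by
      nlinarith [sq_nonneg ((X - Y) - δ * X)]
    exact le_of_mul_le_mul_right h4 hX
  have h5 : X - Y ≤ δ / 2 * X + 1 / (2 * δ) * ((X - Y) * (p - q)) := by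
    have e : δ / 2 * X + 1 / (2 * δ) * ((X - Y) * (p - q)) =
        (δ ^ 2 * X + (X - Y) * (p - q)) / (2 * δ) := by
      field_simp
    rw [e, le_div_iff₀ (by positivity)]
    linarith
  have h6 : 0 ≤ δ / 2 * Y := by positivity
  linarith

private lemma Cmp_exp {δ : ℝ} (hδ : 0 < δ) (p q : ℝ) :
    |Real.exp p - Real.exp q| ≤ δ / 2 * (Real.exp p + Real.exp q) +
      1 / (2 * δ) * ((Real.exp p - Real.exp q) * (p - q)) := by
  rcases le_total q p with h | h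
  · exact Cmp_exp0 hδ h
  · rw [abs_sub_comm]
    refine (Cmp_exp0 hδ h).trans (le_of_eq ?_)
    ring

private lemma Cmp_dot_abs {C : ℝ} {β : Vec d} (hβ : ∀ i, |β i| ≤ C) (v : Vec d) :
    |dot β v| ≤ d * (C * ‖v‖) := by
  unfold dot
  refine (Finset.abs_sum_le_sum_abs _ _).trans ?_
  calc ∑ i, |β i * v i| ≤ ∑ _i : Fin d, C * ‖v‖ := by
        refine Finset.sum_le_sum fun i _ => ?_
        rw [abs_mul]
        have h1 := norm_le_pi_norm v i
        rw [Real.norm_eq_abs] at h1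
        exact mul_le_mul (hβ i) h1 (abs_nonneg _) ((abs_nonneg _).trans (hβ i))
    _ = d * (C * ‖v‖) := by simp

private lemma Cmp_qd_abs {C α κ : ℝ} {β : Vec d} (hC : 0 ≤ C) (hα : |α| ≤ C) (hκ : |κ| ≤ C)
    (hβ : ∀ i, |β i| ≤ C) (v : Vec d) : |qd α β κ v| ≤ C * (1 + d) * (1 + ‖v‖) ^ 2 := by
  unfold Pool.Agent.H37.LT.qd
  have h1 := Cmp_dot_abs hβ v
  have h2 : |κ * nsq v| ≤ C * (d * ‖v‖ ^ 2) := by
    rw [abs_mul, abs_of_nonneg (sq_nonneg' v)]
    exact mul_le_mul hκ (sq_le v) (sq_nonneg' v) hC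
  have h3 := abs_add_le (α + dot β v) (κ * nsq v)
  have h4 := abs_add_le α (dot β v)
  have hn := norm_nonneg v
  have hd0 : (0 : ℝ) ≤ d := Nat.cast_nonneg d
  have h5 : C + d * (C * ‖v‖) + C * (d * ‖v‖ ^ 2) ≤ C * (1 + d) * (1 + ‖v‖) ^ 2 := by
    have e : C * (1 + d) * (1 + ‖v‖) ^ 2 = C + d * (C * ‖v‖) + C * (d * ‖v‖ ^ 2) +
        (2 * (C * ‖v‖) + C * ‖v‖ ^ 2 + d * C + d * (C * ‖v‖)) := by ring
    rw [e]
    have : 0 ≤ 2 * (C * ‖v‖) + C * ‖v‖ ^ 2 + d * C + d * (C * ‖v‖) := by positivity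
    linarith
  linarith

private lemma Cmp_qd_cont (α κ : ℝ) (β : Vec d) : Continuous (qd α β κ : Vec d → ℝ) := by
  unfold Pool.Agent.H37.LT.qd dot nsq
  fun_prop

private lemma Cmp_qd_sub (α κ α' κ' : ℝ) (β β' v : Vec d) :
    qd α β κ v - qd α' β' κ' v = qd (α - α') (β - β') (κ - κ') v := by
  unfold Pool.Agent.H37.LT.qd dot
  simp only [Pi.sub_apply, sub_mul]
  rw [Finset.sum_sub_distrib]
  ring

private lemma Cmp_mx {a k : ℝ} (ha : 0 < a) (u v : Vec d) :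
    mx a k u v = Real.exp (qd (Real.log a - k * nsq u) ((2 * k) • u) (-k) v) := by
  unfold mx Pool.Agent.H37.LT.qd
  have h1 : nsq (v - u) = nsq v - 2 * dot u v + nsq u := by
    unfold nsq dot
    simp only [Pi.sub_apply]
    rw [Finset.mul_sum, ← Finset.sum_sub_distrib, ← Finset.sum_add_distrib]
    exact Finset.sum_congr rfl fun i _ => by ring
  have h2 : dot ((2 * k) • u) v = 2 * k * dot u v := by
    unfold dot
    simp only [Pi.smul_apply, smul_eq_mul]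
    rw [Finset.mul_sum]
    exact Finset.sum_congr rfl fun i _ => by ring
  have h3 : Real.log a - k * nsq u + dot ((2 * k) • u) v + -k * nsq v =
      Real.log a + -(k * nsq (v - u)) := by
    rw [h1, h2]
    ring
  rw [h3, Real.exp_add, Real.exp_log ha]

/-- the moments of `G - μ` against a quadratic function -/
private lemma Cmp_mom {G μ : Vec d → ℝ} {C α κ : ℝ} {β : Vec d} (hα : |α| ≤ C) (hκ : |κ| ≤ C)
    (hβ : ∀ i, |β i| ≤ C) (g0 : Integrable G) (g1 : ∀ i, Integrable fun v => G v * v i)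
    (g2 : Integrable fun v => G v * nsq v) (m0 : Integrable μ)
    (m1 : ∀ i, Integrable fun v => μ v * v i) (m2 : Integrable fun v => μ v * nsq v) :
    |∫ v, (G v - μ v) * qd α β κ v| ≤ C * md G μ := by
  have e : ∀ v, (G v - μ v) * qd α β κ v = α * (G v - μ v) + (∑ i, β i * (G v * v i - μ v * v i)) +
      κ * (G v * nsq v - μ v * nsq v) := by
    intro v
    unfold Pool.Agent.H37.LT.qd dot
    have e1 : ∑ i, β i * (G v * v i - μ v * v i) = (G v - μ v) * ∑ i, β i * v i := by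
      rw [Finset.mul_sum]
      exact Finset.sum_congr rfl fun i _ => by ring
    rw [e1]
    ring
  have i1 : Integrable fun v => α * (G v - μ v) := (g0.sub m0).const_mul α
  have i2 : ∀ i, Integrable fun v => β i * (G v * v i - μ v * v i) := fun i =>
    ((g1 i).sub (m1 i)).const_mul (β i)
  have i3 : Integrable fun v => κ * (G v * nsq v - μ v * nsq v) := (g2.sub m2).const_mul κ
  have i4 : Integrable fun v => ∑ i, β i * (G v * v i - μ v * v i) :=
    integrable_finsetSum _ fun i _ => i2 i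
  have i5 : Integrable fun v => α * (G v - μ v) + ∑ i, β i * (G v * v i - μ v * v i) := i1.add i4
  have h1 : ∫ v, (G v - μ v) * qd α β κ v = α * ((∫ v, G v) - ∫ v, μ v) +
      (∑ i, β i * ((∫ v, G v * v i) - ∫ v, μ v * v i)) +
      κ * ((∫ v, G v * nsq v) - ∫ v, μ v * nsq v) := by
    simp_rw [e]
    rw [integral_add i5 i3, integral_add i1 i4, integral_finsetSum _ fun i _ => i2 i,
      integral_const_mul, integral_const_mul, integral_sub g0 m0, integral_sub g2 m2]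
    congr 2
    refine Finset.sum_congr rfl fun i _ => ?_
    rw [integral_const_mul, integral_sub (g1 i) (m1 i)]
  rw [h1]
  have hC : 0 ≤ C := (abs_nonneg _).trans hα
  have k1 : |α * ((∫ v, G v) - ∫ v, μ v)| ≤ C * |(∫ v, G v) - ∫ v, μ v| := by
    rw [abs_mul]
    exact mul_le_mul_of_nonneg_right hα (abs_nonneg _)
  have k3 : |κ * ((∫ v, G v * nsq v) - ∫ v, μ v * nsq v)| ≤
      C * |(∫ v, G v * nsq v) - ∫ v, μ v * nsq v| := by
    rw [abs_mul]
    exact mul_le_mul_of_nonneg_right hκ (abs_nonneg _)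
  have k2 : |∑ i, β i * ((∫ v, G v * v i) - ∫ v, μ v * v i)| ≤
      C * ∑ i, |(∫ v, G v * v i) - ∫ v, μ v * v i| := by
    refine (Finset.abs_sum_le_sum_abs _ _).trans ?_
    rw [Finset.mul_sum]
    refine Finset.sum_le_sum fun i _ => ?_
    rw [abs_mul]
    exact mul_le_mul_of_nonneg_right (hβ i) (abs_nonneg _)
  unfold md
  refine (abs_add_le _ _).trans ?_
  have k4 := abs_add_le (α * ((∫ v, G v) - ∫ v, μ v))
    (∑ i, β i * ((∫ v, G v * v i) - ∫ v, μ v * v i))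
  rw [mul_add, mul_add]
  linarith

private lemma Cmp_abs {G μ M h : Vec d → ℝ} {B : Set (Vec d)} {T₁ T₂ H W C δ ε₁ : ℝ}
    (hG : Continuous G) (hμ : Continuous μ) (hM : Continuous M) (hh : Continuous h)
    (hG0 : ∀ v, 0 ≤ G v) (hμ0 : ∀ v, 0 ≤ μ v) (g0 : Integrable G) (m0 : Integrable μ)
    (g3 : Integrable fun v => (1 + ‖v‖) ^ 2 * G v) (m3 : Integrable fun v => (1 + ‖v‖) ^ 2 * μ v)
    (hBm : MeasurableSet B) (hBc : IsCompact B)
    (t1 : ∫ v in Bᶜ, (1 + ‖v‖) ^ 2 * G v ≤ T₁) (t2 : ∫ v in Bᶜ, (1 + ‖v‖) ^ 2 * μ v ≤ T₂)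
    (hW0 : 0 ≤ W) (hW : ∀ v, |h v| ≤ W * (1 + ‖v‖) ^ 2) (hH : ∀ v ∈ B, |h v| ≤ H)
    (hmom : |∫ v, (G v - μ v) * h v| ≤ C) (hδ : 0 < δ)
    (hp : ∀ v, |M v - μ v| ≤ δ / 2 * (M v + μ v) + 1 / (2 * δ) * ((M v - μ v) * h v))
    (hε : ∫ v in B, |G v - M v| ≤ ε₁) (hH0 : 0 ≤ H) :
    ∫ v, |G v - μ v| ≤ ε₁ + δ / 2 * ((∫ v, G v) + ε₁ + ∫ v, μ v) +
      1 / (2 * δ) * (H * ε₁ + C + W * (T₁ + T₂)) + (T₁ + T₂) := by
  have hI : ∀ F : Vec d → ℝ, Continuous F → IntegrableOn F B := fun F hF =>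
    hF.continuousOn.integrableOn_compact hBc
  have hw : ∀ v : Vec d, 1 ≤ (1 + ‖v‖) ^ 2 := fun v => one_le_pow₀ (by linarith [norm_nonneg v])
  have a1 : Integrable fun v => |G v - μ v| := (g0.sub m0).abs
  have a2 : Integrable fun v => (1 + ‖v‖) ^ 2 * G v + (1 + ‖v‖) ^ 2 * μ v := g3.add m3
  have hbd : ∀ v, |G v - μ v| ≤ (1 + ‖v‖) ^ 2 * G v + (1 + ‖v‖) ^ 2 * μ v := by
    intro v
    have e1 := hG0 v
    have e2 := hμ0 v
    have e3 := le_mul_of_one_le_left e1 (hw v)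
    have e4 := le_mul_of_one_le_left e2 (hw v)
    rw [abs_le]
    constructor <;> linarith
  have hbd2 : ∀ v, |(G v - μ v) * h v| ≤
      W * ((1 + ‖v‖) ^ 2 * G v + (1 + ‖v‖) ^ 2 * μ v) := by
    intro v
    have e1 := hG0 v
    have e2 := hμ0 v
    rw [abs_mul]
    have e3 : |G v - μ v| ≤ G v + μ v := by
      rw [abs_le]
      constructor <;> linarith
    calc |G v - μ v| * |h v| ≤ (G v + μ v) * (W * (1 + ‖v‖) ^ 2) :=
          mul_le_mul e3 (hW v) (abs_nonneg _) (by linarith)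
      _ = _ := by ring
  have a3 : Integrable fun v => (G v - μ v) * h v :=
    (a2.const_mul W).mono' ((hG.sub hμ).mul hh).aestronglyMeasurable
      (Eventually.of_forall fun v => by rw [Real.norm_eq_abs]; exact hbd2 v)
  have tt : ∫ v in Bᶜ, ((1 + ‖v‖) ^ 2 * G v + (1 + ‖v‖) ^ 2 * μ v) ≤ T₁ + T₂ := by
    rw [integral_add g3.integrableOn m3.integrableOn]
    linarith
  have s1 := (integral_add_compl hBm a1).symm
  have s2 : ∫ v in Bᶜ, |G v - μ v| ≤ T₁ + T₂ :=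
    (integral_mono a1.integrableOn a2.integrableOn hbd).trans tt
  have b1 : IntegrableOn (fun v => |G v - M v|) B := hI _ (hG.sub hM).abs
  have b2 : IntegrableOn (fun v => |M v - μ v|) B := hI _ (hM.sub hμ).abs
  have s3 : ∫ v in B, |G v - μ v| ≤ (∫ v in B, |G v - M v|) + ∫ v in B, |M v - μ v| := by
    rw [← integral_add b1 b2]
    exact integral_mono a1.integrableOn (b1.add b2) fun v => abs_sub_le _ _ _
  have b3 : IntegrableOn M B := hI _ hM
  have b4 : IntegrableOn μ B := hI _ hμ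
  have b5 : IntegrableOn (fun v => (M v - μ v) * h v) B := hI _ ((hM.sub hμ).mul hh)
  have b6 : IntegrableOn (fun v => δ / 2 * (M v + μ v)) B := (b3.add b4).const_mul _
  have b7 : IntegrableOn (fun v => 1 / (2 * δ) * ((M v - μ v) * h v)) B := b5.const_mul _
  have s4 : ∫ v in B, |M v - μ v| ≤ δ / 2 * ((∫ v in B, M v) + ∫ v in B, μ v) +
      1 / (2 * δ) * ∫ v in B, (M v - μ v) * h v := by
    refine (integral_mono b2 (b6.add b7) hp).trans (le_of_eq ?_)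
    simp only [Pi.add_apply]
    rw [integral_add b6 b7, integral_const_mul, integral_const_mul, integral_add b3 b4]
  have s5 : ∫ v in B, M v ≤ (∫ v, G v) + ε₁ := by
    have h1 : ∫ v in B, M v ≤ (∫ v in B, G v) + ∫ v in B, |G v - M v| := by
      rw [← integral_add g0.integrableOn b1]
      refine integral_mono b3 (g0.integrableOn.add b1) fun v => ?_
      have := neg_abs_le (G v - M v)
      show M v ≤ G v + |G v - M v|
      linarith
    have h2 : ∫ v in B, G v ≤ ∫ v, G v := setIntegral_le_integral g0 (Eventually.of_forall hG0)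
    linarith
  have s6 : ∫ v in B, μ v ≤ ∫ v, μ v := setIntegral_le_integral m0 (Eventually.of_forall hμ0)
  have b8 : IntegrableOn (fun v => (M v - G v) * h v) B := hI _ ((hM.sub hG).mul hh)
  have s7 : ∫ v in B, (M v - μ v) * h v =
      (∫ v in B, (M v - G v) * h v) + ∫ v in B, (G v - μ v) * h v := by
    rw [← integral_add b8 a3.integrableOn]
    refine integral_congr_ae (Eventually.of_forall fun v => ?_)
    simp only
    ring
  have s8 : ∫ v in B, (M v - G v) * h v ≤ H * ε₁ := by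
    have h1 : ∫ v in B, (M v - G v) * h v ≤ ∫ v in B, H * |G v - M v| := by
      refine setIntegral_mono_on b8 (b1.const_mul _) hBm fun v hv => ?_
      calc (M v - G v) * h v ≤ |(M v - G v) * h v| := le_abs_self _
        _ = |h v| * |G v - M v| := by rw [abs_mul, abs_sub_comm, mul_comm]
        _ ≤ H * |G v - M v| := mul_le_mul_of_nonneg_right (hH v hv) (abs_nonneg _)
    rw [integral_const_mul] at h1
    exact h1.trans (mul_le_mul_of_nonneg_left hε hH0)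
  have s9 := integral_add_compl hBm a3
  have s10 : -(W * (T₁ + T₂)) ≤ ∫ v in Bᶜ, (G v - μ v) * h v := by
    have h1 : ∫ v in Bᶜ, -((G v - μ v) * h v) ≤
        ∫ v in Bᶜ, W * ((1 + ‖v‖) ^ 2 * G v + (1 + ‖v‖) ^ 2 * μ v) := by
      refine integral_mono a3.neg.integrableOn (a2.const_mul W).integrableOn fun v => ?_
      exact (neg_le_abs _).trans (hbd2 v)
    rw [integral_neg, integral_const_mul] at h1
    have h2 := mul_le_mul_of_nonneg_left tt hW0
    linarith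
  have s11 := le_abs_self (∫ v, (G v - μ v) * h v)
  have c1 : ∫ v in B, (M v - μ v) * h v ≤ H * ε₁ + C + W * (T₁ + T₂) := by
    rw [s7]
    linarith
  have c2 : 1 / (2 * δ) * (∫ v in B, (M v - μ v) * h v) ≤
      1 / (2 * δ) * (H * ε₁ + C + W * (T₁ + T₂)) :=
    mul_le_mul_of_nonneg_left c1 (by positivity)
  have c3 : δ / 2 * ((∫ v in B, M v) + ∫ v in B, μ v) ≤
      δ / 2 * ((∫ v, G v) + ε₁ + ∫ v, μ v) :=
    mul_le_mul_of_nonneg_left (by linarith) (by positivity)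
  linarith

/-- the main estimate -/
private lemma Cmp_main {Cl Cm : ℕ → ℝ} {G μ : Vec d → ℝ} {α κ αm κm C R δ ε₁ : ℝ} {β βm : Vec d}
    (hGc : Continuous G) (hG0 : ∀ v, 0 ≤ G v)
    (hGl : ∀ (N : ℕ) (v : Vec d), (1 + ‖v‖) ^ N * G v ≤ Cl N)
    (hμl : ∀ (N : ℕ) (v : Vec d), (1 + ‖v‖) ^ N * μ v ≤ Cm N)
    (hμ : ∀ v, μ v = Real.exp (qd αm βm κm v)) (hC : 0 ≤ C) (hα : |α - αm| ≤ C)
    (hκ : |κ - κm| ≤ C) (hβ : ∀ i, |(β - βm) i| ≤ C) (hR : 0 ≤ R) (hδ : 0 < δ)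
    (hε : ∫ v in Metric.closedBall (0 : Vec d) R, |G v - Real.exp (qd α β κ v)| ≤ ε₁) :
    ∫ v, |G v - μ v| ≤ ε₁ + δ / 2 * ((∫ v, G v) + ε₁ + ∫ v, μ v) + 1 / (2 * δ) *
      (C * (1 + d) * (1 + R) ^ 2 * ε₁ + C * md G μ +
        C * (1 + d) * (Cmp_T d Cl / (1 + R) + Cmp_T d Cm / (1 + R))) +
      (Cmp_T d Cl / (1 + R) + Cmp_T d Cm / (1 + R)) := by
  have hqc : Continuous fun v : Vec d => Real.exp (qd α β κ v) :=
    Real.continuous_exp.comp (Cmp_qd_cont α κ β)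
  have hμc : Continuous μ := by
    have e : μ = fun v => Real.exp (qd αm βm κm v) := funext hμ
    rw [e]
    exact Real.continuous_exp.comp (Cmp_qd_cont αm κm βm)
  have hμ0 : ∀ v, 0 ≤ μ v := fun v => by rw [hμ v]; exact (Real.exp_pos _).le
  obtain ⟨g0, g1, g2, g3⟩ := Cmp_ints hGc hG0 hGl
  obtain ⟨m0, m1, m2, m3⟩ := Cmp_ints hμc hμ0 hμl
  have hd0 : (0 : ℝ) ≤ d := Nat.cast_nonneg d
  refine Cmp_abs (M := fun v => Real.exp (qd α β κ v)) (h := qd (α - αm) (β - βm) (κ - κm))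
    hGc hμc hqc (Cmp_qd_cont _ _ _) hG0 hμ0 g0 m0 g3 m3
    Metric.isClosed_closedBall.measurableSet (isCompact_closedBall _ _)
    (Cmp_tail hGc hG0 hGl hR) (Cmp_tail hμc hμ0 hμl hR) (by positivity)
    (Cmp_qd_abs hC hα hκ hβ) (fun v hv => ?_) (Cmp_mom hα hκ hβ g0 g1 g2 m0 m1 m2) hδ
    (fun v => ?_) hε (by positivity)
  · rw [mem_closedBall_zero_iff] at hv
    refine (Cmp_qd_abs hC hα hκ hβ v).trans (mul_le_mul_of_nonneg_left ?_ (by positivity))
    exact pow_le_pow_left₀ (by positivity) (by linarith) 2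
  · rw [hμ v, ← Cmp_qd_sub]
    exact Cmp_exp hδ _ _

theorem slice_eps (hd : 2 ≤ d) : SliceEps d := by
  intro Cl m hm a k ha hk u ε hε
  obtain ⟨Cm, hCm⟩ := Pool.Agent.H48.NE.mx_FB (d := d) ha hk u
  have hT1 := Cmp_T_nonneg d Cl
  have hT2 := Cmp_T_nonneg d Cm
  have hd0 : (0 : ℝ) ≤ d := Nat.cast_nonneg d
  obtain ⟨I₀, hI₀, hIG⟩ : ∃ I₀ : ℝ, 0 ≤ I₀ ∧
      ∀ G : Vec d → ℝ, SC Cl m G → (∫ v, G v) + ∫ v, mx a k u v ≤ I₀ := by
    refine ⟨|Cl (d + 1)| * (∫ v, wt d v) + |Cm (d + 1)| * ∫ v, wt d v, ?_, fun G hG => ?_⟩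
    · have : 0 ≤ ∫ v, wt d v := integral_nonneg fun v => wt_nonneg v
      positivity
    · exact add_le_add (Cmp_mass hG.cont hG.nn hG.le) (Cmp_mass hCm.nice.cont hCm.nonneg hCm.le)
  obtain ⟨R₀, hR₀, hR₀m⟩ : ∃ R₀ : ℝ, 0 < R₀ ∧ Cmp_T d Cl / (1 + R₀) ≤ m / 4 := by
    refine ⟨4 * Cmp_T d Cl / m + 1, by positivity, ?_⟩
    rw [div_le_iff₀ (by positivity)]
    have e : m / 4 * (1 + (4 * Cmp_T d Cl / m + 1)) = Cmp_T d Cl + m / 2 := by
      field_simp
      ring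
    rw [e]
    linarith
  obtain ⟨C₀, hC₀⟩ := quad_G hd Cl hm
  obtain ⟨C₁, hC₁, hco⟩ := coef (d := d) (by omega) (R := R₀) (C := C₀ + 2 * (d * (2 * R₀) ^ 2))
    (c₀ := m / 2) hR₀ (half_pos hm)
  obtain ⟨C₂, hC₂, hCα, hCκ, hCβ⟩ : ∃ C₂ : ℝ, 0 ≤ C₂ ∧
      C₁ + |Real.log a - k * nsq u| ≤ C₂ ∧ C₁ + |(-k)| ≤ C₂ ∧
      ∀ i, C₁ + |((2 * k) • u) i| ≤ C₂ := by
    have h1 : 0 ≤ ∑ i, |((2 * k) • u) i| := Finset.sum_nonneg fun i _ => abs_nonneg _
    have h2 := abs_nonneg (Real.log a - k * nsq u)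
    have h3 := abs_nonneg (-k)
    refine ⟨C₁ + |Real.log a - k * nsq u| + |(-k)| + ∑ i, |((2 * k) • u) i|, by linarith,
      by linarith, by linarith, fun i => ?_⟩
    have h4 : |((2 * k) • u) i| ≤ ∑ i, |((2 * k) • u) i| :=
      Finset.single_le_sum (f := fun i => |((2 * k) • u) i|) (fun j _ => abs_nonneg _)
        (Finset.mem_univ i)
    linarith
  obtain ⟨δ, hδ, hδε⟩ : ∃ δ > 0, δ / 2 * (I₀ + 1) ≤ ε / 6 := by
    refine ⟨ε / (3 * (I₀ + 1)), by positivity, le_of_eq ?_⟩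
    field_simp
    norm_num
  have hd2 : 0 < 1 / (2 * δ) := by positivity
  have hδ2 : 1 / (2 * δ) * (2 * δ) = 1 := by field_simp
  generalize hgδ : 1 / (2 * δ) = e at hd2 hδ2
  obtain ⟨R, hR, hRR, hRε⟩ : ∃ R : ℝ, 0 ≤ R ∧ 2 * R₀ ≤ R ∧
      e * (C₂ * (1 + d) * (Cmp_T d Cl / (1 + R) + Cmp_T d Cm / (1 + R))) +
        (Cmp_T d Cl / (1 + R) + Cmp_T d Cm / (1 + R)) ≤ ε / 6 := by
    obtain ⟨Q, hQ⟩ : ∃ Q : ℝ, Q = e * (C₂ * (1 + d) * (Cmp_T d Cl + Cmp_T d Cm)) +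
        (Cmp_T d Cl + Cmp_T d Cm) := ⟨_, rfl⟩
    have hQ0 : 0 ≤ Q := by rw [hQ]; positivity
    refine ⟨max (2 * R₀) (6 * Q / ε), le_max_of_le_left (by linarith), le_max_left _ _, ?_⟩
    have h1 : 6 * Q / ε ≤ max (2 * R₀) (6 * Q / ε) := le_max_right _ _
    have h2 : 0 ≤ max (2 * R₀) (6 * Q / ε) := le_max_of_le_left (by linarith)
    generalize max (2 * R₀) (6 * Q / ε) = R at h1 h2
    rw [div_le_iff₀ hε] at h1
    have h3 : 0 < 1 + R := by linarith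
    have h4 : e * (C₂ * (1 + d) * (Cmp_T d Cl / (1 + R) + Cmp_T d Cm / (1 + R))) +
        (Cmp_T d Cl / (1 + R) + Cmp_T d Cm / (1 + R)) = Q / (1 + R) := by
      rw [hQ]
      field_simp
    rw [h4, div_le_iff₀ h3]
    linarith
  obtain ⟨H, hH⟩ : ∃ H : ℝ, H = C₂ * (1 + d) * (1 + R) ^ 2 := ⟨_, rfl⟩
  have hH0 : 0 ≤ H := by rw [hH]; positivity
  obtain ⟨ε₁, hε₁, hε₁m, hε₁1, hε₁ε⟩ : ∃ ε₁ > 0, ε₁ ≤ m / 4 ∧ ε₁ ≤ 1 ∧
      ε₁ + e * (H * ε₁) ≤ ε / 6 := by
    have h1 : 0 < 1 + e * H := by positivity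
    refine ⟨min (m / 4) (min 1 (ε / 6 / (1 + e * H))), lt_min (by positivity)
      (lt_min one_pos (by positivity)), min_le_left _ _, (min_le_right _ _).trans (min_le_left _ _),
      ?_⟩
    have h2 : min (m / 4) (min 1 (ε / 6 / (1 + e * H))) ≤ ε / 6 / (1 + e * H) :=
      (min_le_right _ _).trans (min_le_right _ _)
    rw [le_div_iff₀ h1] at h2
    linarith
  obtain ⟨η₁, hη₁, hq⟩ := hC₀ R ε₁ (by linarith) hε₁
  refine ⟨min η₁ (ε / 6 * (2 * δ) / (C₂ + 1)), lt_min hη₁ (by positivity),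
    fun G hG hdv hmd => ?_⟩
  obtain ⟨α, κ, β, hle, hint⟩ := hq G hG (hdv.trans (min_le_left _ _))
  have hqc : Continuous fun v : Vec d => Real.exp (qd α β κ v) :=
    Real.continuous_exp.comp (Cmp_qd_cont α κ β)
  obtain ⟨hα, hκ, hβ⟩ := hco α κ β (fun v hv => by
    have h1 := hle v (hv.trans hRR)
    have h2 := sq_le v
    have h3 : ‖v‖ ^ 2 ≤ (2 * R₀) ^ 2 := pow_le_pow_left₀ (norm_nonneg v) hv 2
    have h4 := mul_le_mul_of_nonneg_left h3 hd0
    linarith) (by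
    have hcR : ∀ r : ℝ, IntegrableOn (fun v => |G v - Real.exp (qd α β κ v)|)
        (Metric.closedBall (0 : Vec d) r) := fun r =>
      (hG.cont.sub hqc).abs.continuousOn.integrableOn_compact (isCompact_closedBall _ _)
    have g0 := (Cmp_ints hG.cont hG.nn hG.le).1
    have g3 := (Cmp_ints hG.cont hG.nn hG.le).2.2.2
    have h1 : ∫ v in Metric.closedBall (0 : Vec d) R₀, |G v - Real.exp (qd α β κ v)| ≤ ε₁ :=
      (setIntegral_mono_set (hcR R) (Eventually.of_forall fun v => abs_nonneg _)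
        (Metric.closedBall_subset_closedBall (by linarith)).eventuallyLE).trans hint
    have h2 := integral_add_compl (Metric.isClosed_closedBall (x := (0 : Vec d))
      (ε := R₀)).measurableSet g0
    have h3 : ∫ v in (Metric.closedBall (0 : Vec d) R₀)ᶜ, G v ≤ m / 4 := by
      refine le_trans ?_ ((Cmp_tail hG.cont hG.nn hG.le hR₀.le).trans hR₀m)
      refine integral_mono g0.integrableOn g3.integrableOn fun v => ?_
      exact le_mul_of_one_le_left (hG.nn v) (one_le_pow₀ (by linarith [norm_nonneg v]))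
    have h4 := hG.mass
    have hqi : IntegrableOn (fun v => Real.exp (qd α β κ v)) (Metric.closedBall (0 : Vec d) R₀) :=
      hqc.continuousOn.integrableOn_compact (isCompact_closedBall _ _)
    have h5 : (∫ v in Metric.closedBall (0 : Vec d) R₀, G v) ≤
        (∫ v in Metric.closedBall (0 : Vec d) R₀, Real.exp (qd α β κ v)) +
          ∫ v in Metric.closedBall (0 : Vec d) R₀, |G v - Real.exp (qd α β κ v)| := by
      rw [← integral_add hqi (hcR R₀)]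
      refine integral_mono g0.integrableOn (hqi.add (hcR R₀)) fun v => ?_
      have := le_abs_self (G v - Real.exp (qd α β κ v))
      show G v ≤ Real.exp (qd α β κ v) + |G v - Real.exp (qd α β κ v)|
      linarith
    linarith)
  have hmain := Cmp_main (C := C₂) hG.cont hG.nn hG.le hCm.le (fun v => Cmp_mx ha u v) hC₂
    ((abs_sub _ _).trans ((add_le_add_left hα _).trans hCα))
    ((abs_sub _ _).trans ((add_le_add_left hκ _).trans hCκ))
    (fun i => (abs_sub _ _).trans ((add_le_add_left (hβ i) _).trans (hCβ i))) hR hδ hint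
  rw [hgδ, ← hH] at hmain
  have k1 : δ / 2 * ((∫ v, G v) + ε₁ + ∫ v, mx a k u v) ≤ ε / 6 := by
    refine le_trans (mul_le_mul_of_nonneg_left ?_ (by positivity)) hδε
    have := hIG G hG
    linarith
  have k2 : e * (C₂ * md G (mx a k u)) ≤ ε / 6 := by
    have h1 := hmd.trans (min_le_right η₁ (ε / 6 * (2 * δ) / (C₂ + 1)))
    rw [le_div_iff₀ (by positivity)] at h1
    have hmd0 : 0 ≤ md G (mx a k u) := by
      unfold md
      have h1 : 0 ≤ ∑ i, |(∫ v, G v * v i) - ∫ v, mx a k u v * v i| :=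
        Finset.sum_nonneg fun i _ => abs_nonneg _
      have h2 := abs_nonneg ((∫ v, G v) - ∫ v, mx a k u v)
      have h3 := abs_nonneg ((∫ v, G v * nsq v) - ∫ v, mx a k u v * nsq v)
      linarith
    have h2 : C₂ * md G (mx a k u) ≤ ε / 6 * (2 * δ) := by linarith
    calc e * (C₂ * md G (mx a k u)) ≤ e * (ε / 6 * (2 * δ)) := mul_le_mul_of_nonneg_left h2 hd2.le
      _ = ε / 6 * (e * (2 * δ)) := by ring
      _ = ε / 6 := by rw [hδ2, mul_one]
  rw [mul_add e, mul_add e] at hmain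
  linarith

end Pool.Agent.H37.SB
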