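import Pool.Agent.H37.LT.PrA

/-!
# Module Bas: the integrals `NN`, bounds

`k` in `KC K c`. `eN a p v = exp(-a|v|²+2a p·v)`, `a > 0`. `k v * eN a p v` and `v i * (k v * eN a p v)` are integrable (`k ≤ K gau`, `eN a p v = exp(a |p|²) exp(-a|v-p|²) ≤ exp(a |p|²)`).
* `NN_low`: for `‖p‖ ≤ R`: choose `R₀` with `∫_{‖v‖ > R₀} K gau ≤ c/2`; on `‖v‖ ≤ R₀`: `eN ≥ exp(-a d R₀² - 2 a d R R₀)`; `c_N = (c/2) exp(..)`.
* `NN_up`: `NN ≤ exp(a d R²) K ∫ gau`.
* `eN_bd`: `eN a p v ≤ exp(a d R²)`; `eN_lin`: `|v i| eN a p v ≤ C` (`|v i| exp(-a|v|²+2a p·v)` bounded).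
-/

set_option autoImplicit false

open MeasureTheory Set Filter Topology Pool.Agent.H25.Kin Pool.Agent.H37.LT
open Pool.Agent.H15.AV (gau UNice)

namespace Pool.Agent.H37.SB

variable {d : ℕ}

private lemma Bas_half : Integrable fun v : Vec d => Real.exp (-(1 / 2 * nsq v)) := by
  have h : (fun v : Vec d => Real.exp (-(1 / 2 * nsq v))) =
      fun v : Vec d => ∏ i, Real.exp (-(1 / 2) * (v i) ^ 2) := by
    funext v
    unfold nsq
    rw [← Real.exp_sum]
    congr 1
    rw [Finset.mul_sum, ← Finset.sum_neg_distrib]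
    exact Finset.sum_congr rfl fun i _ => by ring
  rw [h]
  exact MeasureTheory.Integrable.fintype_prod
    (f := fun (_ : Fin d) (x : ℝ) => Real.exp (-(1 / 2) * x ^ 2))
    (fun i => integrable_exp_neg_mul_sq (by norm_num))

private lemma Bas_sq (v : Vec d) : ‖v‖ ^ 2 ≤ nsq v := by
  have h0 : 0 ≤ nsq v := Finset.sum_nonneg fun i _ => sq_nonneg _
  have h1 : ‖v‖ ≤ Real.sqrt (nsq v) := by
    refine (pi_norm_le_iff_of_nonneg (Real.sqrt_nonneg _)).2 fun i => ?_
    rw [Real.norm_eq_abs]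
    refine Real.abs_le_sqrt ?_
    exact Finset.single_le_sum (f := fun j => v j ^ 2) (fun j _ => sq_nonneg _) (Finset.mem_univ i)
  calc ‖v‖ ^ 2 ≤ Real.sqrt (nsq v) ^ 2 := pow_le_pow_left₀ (norm_nonneg _) h1 2
    _ = nsq v := Real.sq_sqrt h0

private lemma Bas_wt (v : Vec d) : (1 + ‖v‖) * gau v ≤ 2 * Real.exp (-(1 / 2 * nsq v)) := by
  have h1 := Bas_sq v
  have h2 : 1 + ‖v‖ ≤ 2 * Real.exp (1 / 2 * nsq v) := by
    have h3 := Real.add_one_le_exp (1 / 2 * nsq v)
    nlinarith [sq_nonneg (‖v‖ - 1)]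
  calc (1 + ‖v‖) * gau v ≤ 2 * Real.exp (1 / 2 * nsq v) * gau v :=
        mul_le_mul_of_nonneg_right h2 (Real.exp_pos _).le
    _ = 2 * Real.exp (-(1 / 2 * nsq v)) := by
        unfold gau
        rw [mul_assoc, ← Real.exp_add]
        congr 2
        ring

lemma eN_cont (a : ℝ) : Continuous fun q : Vec d × Vec d => eN a q.1 q.2 := by
  unfold eN nsq dot
  fun_prop

lemma eN_pos (a : ℝ) (p v : Vec d) : 0 < eN a p v := Real.exp_pos _

/-- `eN` and `|v i| eN` are bounded -/
lemma eN_bd {a R : ℝ} (ha : 0 < a) (hR : 0 ≤ R) (d : ℕ) : ∃ C : ℝ, 0 ≤ C ∧ ∀ p v : Vec d, ‖p‖ ≤ R →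
    eN a p v ≤ C ∧ ∀ i, |v i| * eN a p v ≤ C := by
  have e := Real.exp_pos (2 * a * d * R ^ 2)
  refine ⟨Real.exp (2 * a * d * R ^ 2) * (1 + 1 / a), by positivity, ?_⟩
  intro p v hp
  have hpi : ∀ i, |p i| ≤ R := fun i => (norm_le_pi_norm p i).trans hp
  have h1 : eN a p v ≤ Real.exp (2 * a * d * R ^ 2) * Real.exp (-(a / 2 * nsq v)) := by
    unfold eN
    rw [← Real.exp_add]
    refine Real.exp_le_exp.2 ?_
    have h2 : 2 * a * dot p v ≤ ∑ i : Fin d, (a / 2 * v i ^ 2 + 2 * a * R ^ 2) := by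
      unfold dot
      rw [Finset.mul_sum]
      refine Finset.sum_le_sum fun i _ => ?_
      have h3 : p i * v i ≤ R * |v i| := by
        calc p i * v i ≤ |p i * v i| := le_abs_self _
          _ = |p i| * |v i| := abs_mul _ _
          _ ≤ R * |v i| := mul_le_mul_of_nonneg_right (hpi i) (abs_nonneg _)
      have h4 : v i ^ 2 = |v i| ^ 2 := (sq_abs _).symm
      rw [h4]
      have h5 : 0 ≤ a / 2 * (|v i| - 2 * R) ^ 2 := by positivity
      have h6 : 2 * a * (p i * v i) ≤ 2 * a * (R * |v i|) :=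
        mul_le_mul_of_nonneg_left h3 (by positivity)
      nlinarith
    rw [Finset.sum_add_distrib, ← Finset.mul_sum] at h2
    simp only [Finset.sum_const, Finset.card_univ, Fintype.card_fin, nsmul_eq_mul] at h2
    have h7 : nsq v = ∑ i, v i ^ 2 := rfl
    rw [← h7] at h2
    nlinarith
  have h8 : Real.exp (-(a / 2 * nsq v)) ≤ 1 := by
    rw [Real.exp_le_one_iff]
    have : 0 ≤ nsq v := Finset.sum_nonneg fun i _ => sq_nonneg _
    nlinarith [mul_nonneg ha.le this]
  have ha1 : 0 ≤ 1 / a := by positivity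
  refine ⟨?_, fun i => ?_⟩
  · calc eN a p v ≤ Real.exp (2 * a * d * R ^ 2) * Real.exp (-(a / 2 * nsq v)) := h1
      _ ≤ Real.exp (2 * a * d * R ^ 2) * (1 + 1 / a) :=
          mul_le_mul_of_nonneg_left (by linarith) e.le
  · have h9 : |v i| * Real.exp (-(a / 2 * nsq v)) ≤ 1 + 1 / a := by
      have h10 : v i ^ 2 ≤ nsq v :=
        Finset.single_le_sum (f := fun j => v j ^ 2) (fun j _ => sq_nonneg _) (Finset.mem_univ i)
      have h11 : Real.exp (-(a / 2 * nsq v)) ≤ Real.exp (-(a / 2 * v i ^ 2)) := by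
        refine Real.exp_le_exp.2 ?_
        have := mul_le_mul_of_nonneg_left h10 (by positivity : 0 ≤ a / 2)
        linarith
      have h12 : Real.exp (-(a / 2 * v i ^ 2)) * (1 + a / 2 * v i ^ 2) ≤ 1 := by
        have h13 : 1 + a / 2 * v i ^ 2 ≤ Real.exp (a / 2 * v i ^ 2) := by
          have := Real.add_one_le_exp (a / 2 * v i ^ 2)
          linarith
        calc Real.exp (-(a / 2 * v i ^ 2)) * (1 + a / 2 * v i ^ 2)
            ≤ Real.exp (-(a / 2 * v i ^ 2)) * Real.exp (a / 2 * v i ^ 2) :=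
              mul_le_mul_of_nonneg_left h13 (Real.exp_pos _).le
          _ = 1 := by rw [← Real.exp_add]; simp
      have h14 : |v i| ≤ (1 + 1 / a) * (1 + a / 2 * v i ^ 2) := by
        have h15 : (1 + 1 / a) * (1 + a / 2 * v i ^ 2) =
            1 + v i ^ 2 / 2 + 1 / a + a / 2 * v i ^ 2 := by
          field_simp
          ring
        rw [h15, ← sq_abs (v i)]
        have h16 : 0 ≤ a / 2 * |v i| ^ 2 := by positivity
        nlinarith [sq_nonneg (|v i| - 1)]
      calc |v i| * Real.exp (-(a / 2 * nsq v))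
          ≤ |v i| * Real.exp (-(a / 2 * v i ^ 2)) :=
            mul_le_mul_of_nonneg_left h11 (abs_nonneg _)
        _ ≤ (1 + 1 / a) * (1 + a / 2 * v i ^ 2) * Real.exp (-(a / 2 * v i ^ 2)) :=
            mul_le_mul_of_nonneg_right h14 (Real.exp_pos _).le
        _ = (1 + 1 / a) * (Real.exp (-(a / 2 * v i ^ 2)) * (1 + a / 2 * v i ^ 2)) := by ring
        _ ≤ (1 + 1 / a) * 1 := mul_le_mul_of_nonneg_left h12 (by positivity)
        _ = 1 + 1 / a := mul_one _
    calc |v i| * eN a p v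
        ≤ |v i| * (Real.exp (2 * a * d * R ^ 2) * Real.exp (-(a / 2 * nsq v))) :=
          mul_le_mul_of_nonneg_left h1 (abs_nonneg _)
      _ = Real.exp (2 * a * d * R ^ 2) * (|v i| * Real.exp (-(a / 2 * nsq v))) := by ring
      _ ≤ Real.exp (2 * a * d * R ^ 2) * (1 + 1 / a) := mul_le_mul_of_nonneg_left h9 e.le

lemma k_int {K c : ℝ} {k : Vec d → ℝ} (hk : KC K c k) {F : Vec d → ℝ} (hF : Continuous F) {C : ℝ}
    (hC : ∀ v, |F v| ≤ C * (1 + ‖v‖)) : Integrable fun v => k v * F v := by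
  have hK : 0 ≤ K := by
    have h1 := (hk.nn 0).trans (hk.le 0)
    have h2 : (0:ℝ) < gau (0 : Vec d) := Real.exp_pos _
    by_contra h3
    push Not at h3
    nlinarith [mul_neg_of_neg_of_pos h3 h2]
  have hC0 : 0 ≤ C := by
    have h1 := (abs_nonneg (F 0)).trans (hC 0)
    rw [norm_zero, add_zero, mul_one] at h1
    exact h1
  refine Integrable.mono' ((Bas_half (d := d)).const_mul (2 * K * C))
    (hk.cont.mul hF).aestronglyMeasurable (Eventually.of_forall fun v => ?_)
  rw [Real.norm_eq_abs, abs_mul, abs_of_nonneg (hk.nn v)]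
  have h2 := Bas_wt v
  calc k v * |F v| ≤ (K * gau v) * (C * (1 + ‖v‖)) :=
        mul_le_mul (hk.le v) (hC v) (abs_nonneg _) (mul_nonneg hK (Real.exp_pos _).le)
    _ = K * C * ((1 + ‖v‖) * gau v) := by ring
    _ ≤ K * C * (2 * Real.exp (-(1 / 2 * nsq v))) :=
        mul_le_mul_of_nonneg_left h2 (mul_nonneg hK hC0)
    _ = 2 * K * C * Real.exp (-(1 / 2 * nsq v)) := by ring

theorem NN_low (d : ℕ) {K c a R : ℝ} (hc : 0 < c) (ha : 0 < a) (hR : 0 ≤ R) : ∃ c₁ > 0,
    ∀ k : Vec d → ℝ, KC K c k → ∀ p : Vec d, ‖p‖ ≤ R → c₁ ≤ NN a k p := by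
  set G : ℝ := ∫ v : Vec d, Real.exp (-(1 / 2 * nsq v)) with hG
  have hG0 : 0 ≤ G := integral_nonneg fun v => (Real.exp_pos _).le
  set ε : ℝ := c / (2 * (|K| * G + 1)) with hε
  have hq : 0 < |K| * G + 1 := by positivity
  have hε0 : 0 < ε := by positivity
  set R₀ : ℝ := Real.sqrt (2 / ε) with hR₀
  have hR₀0 : 0 ≤ R₀ := Real.sqrt_nonneg _
  have hR₀2 : R₀ ^ 2 = 2 / ε := Real.sq_sqrt (by positivity)
  have hexp : Real.exp (-(R₀ ^ 2 / 2)) ≤ ε := by
    rw [hR₀2]
    have e1 : 2 / ε / 2 = 1 / ε := by ring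
    rw [e1, Real.exp_neg]
    have h1 : 1 / ε ≤ Real.exp (1 / ε) := by
      have := Real.add_one_le_exp (1 / ε)
      linarith
    calc (Real.exp (1 / ε))⁻¹ ≤ (1 / ε)⁻¹ := inv_anti₀ (by positivity) h1
      _ = ε := by simp
  set e₀ : ℝ := Real.exp (-(a * (d * R₀ ^ 2)) - 2 * a * (d * (R * R₀))) with he₀
  have he₀0 : 0 < e₀ := Real.exp_pos _
  refine ⟨e₀ * (c / 2), by positivity, ?_⟩
  intro k hk p hp
  have hpi : ∀ i, |p i| ≤ R := fun i => (norm_le_pi_norm p i).trans hp
  have hint : Integrable k := by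
    have h := k_int hk (continuous_const (y := (1:ℝ))) (C := 1) (fun v => by
      rw [abs_one, one_mul]
      linarith [norm_nonneg v])
    simpa using h
  have hint2 : Integrable fun v : Vec d => k v * eN a p v := by
    obtain ⟨C, hC0, hC⟩ := eN_bd ha hR d
    refine k_int hk ((eN_cont a).comp (by fun_prop : Continuous fun v : Vec d => (p, v)))
      (C := C) (fun v => ?_)
    have h1 : 0 ≤ eN a p v := (Real.exp_pos _).le
    show |eN a p v| ≤ _
    rw [abs_of_nonneg h1]
    have h2 := (hC p v hp).1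
    nlinarith [mul_nonneg hC0 (norm_nonneg v)]
  have hpt : ∀ v : Vec d,
      e₀ * (k v - |K| * ε * Real.exp (-(1 / 2 * nsq v))) ≤ k v * eN a p v := by
    intro v
    have hn0 : 0 ≤ nsq v := Finset.sum_nonneg fun i _ => sq_nonneg _
    rcases le_or_gt ‖v‖ R₀ with hv | hv
    · have hvi : ∀ i, |v i| ≤ R₀ := fun i => (norm_le_pi_norm v i).trans hv
      have h1 : e₀ ≤ eN a p v := by
        rw [he₀]
        unfold eN
        refine Real.exp_le_exp.2 ?_
        have h2 : nsq v ≤ d * R₀ ^ 2 := by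
          have : nsq v ≤ ∑ _i : Fin d, R₀ ^ 2 := Finset.sum_le_sum fun i _ => by
            rw [← sq_abs (v i)]
            exact pow_le_pow_left₀ (abs_nonneg _) (hvi i) 2
          simpa using this
        have h3 : -(d * (R * R₀)) ≤ dot p v := by
          have : ∑ _i : Fin d, (-(R * R₀)) ≤ dot p v := Finset.sum_le_sum fun i _ => by
            have h4 : |p i * v i| ≤ R * R₀ := by
              rw [abs_mul]
              exact mul_le_mul (hpi i) (hvi i) (abs_nonneg _) hR
            exact (abs_le.1 h4).1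
          simpa using this
        have h5 := mul_le_mul_of_nonneg_left h2 ha.le
        have h6 := mul_le_mul_of_nonneg_left h3 (by positivity : 0 ≤ 2 * a)
        linarith
      have h7 : 0 ≤ |K| * ε * Real.exp (-(1 / 2 * nsq v)) := by positivity
      calc e₀ * (k v - |K| * ε * Real.exp (-(1 / 2 * nsq v))) ≤ e₀ * k v :=
            mul_le_mul_of_nonneg_left (by linarith) he₀0.le
        _ ≤ eN a p v * k v := mul_le_mul_of_nonneg_right h1 (hk.nn v)
        _ = k v * eN a p v := mul_comm _ _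
    · have h1 : k v ≤ |K| * ε * Real.exp (-(1 / 2 * nsq v)) := by
        have h2 : gau v ≤ ε * Real.exp (-(1 / 2 * nsq v)) := by
          have h3 : gau v ≤ Real.exp (-(R₀ ^ 2 / 2)) * Real.exp (-(1 / 2 * nsq v)) := by
            unfold gau
            rw [← Real.exp_add]
            refine Real.exp_le_exp.2 ?_
            have h4 : R₀ ^ 2 ≤ nsq v := by
              have h5 : R₀ ^ 2 ≤ ‖v‖ ^ 2 := pow_le_pow_left₀ hR₀0 hv.le 2
              exact h5.trans (Bas_sq v)
            linarith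
          exact h3.trans (mul_le_mul_of_nonneg_right hexp (Real.exp_pos _).le)
        calc k v ≤ K * gau v := hk.le v
          _ ≤ |K| * gau v := mul_le_mul_of_nonneg_right (le_abs_self K) (Real.exp_pos _).le
          _ ≤ |K| * (ε * Real.exp (-(1 / 2 * nsq v))) :=
              mul_le_mul_of_nonneg_left h2 (abs_nonneg _)
          _ = _ := by ring
      have h6 : e₀ * (k v - |K| * ε * Real.exp (-(1 / 2 * nsq v))) ≤ 0 :=
        mul_nonpos_of_nonneg_of_nonpos he₀0.le (by linarith)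
      exact h6.trans (mul_nonneg (hk.nn v) (Real.exp_pos _).le)
  have hI : ∫ v : Vec d, e₀ * (k v - |K| * ε * Real.exp (-(1 / 2 * nsq v))) =
      e₀ * ((∫ v, k v) - |K| * ε * G) := by
    rw [integral_const_mul, integral_sub hint ((Bas_half (d := d)).const_mul _),
      integral_const_mul]
  have h8 : e₀ * ((∫ v, k v) - |K| * ε * G) ≤ NN a k p := by
    rw [← hI]
    unfold NN
    exact integral_mono ((hint.sub ((Bas_half (d := d)).const_mul _)).const_mul e₀) hint2 hpt
  refine le_trans (mul_le_mul_of_nonneg_left ?_ he₀0.le) h8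
  have h9 : |K| * ε * G ≤ c / 2 := by
    have h10 : |K| * ε * G = (|K| * G) * ε := by ring
    rw [h10, hε]
    have h11 : (|K| * G) * (c / (2 * (|K| * G + 1))) = (c / 2) * ((|K| * G) / (|K| * G + 1)) := by
      field_simp
    rw [h11]
    have h12 : (|K| * G) / (|K| * G + 1) ≤ 1 := by
      rw [div_le_one hq]
      linarith
    calc c / 2 * ((|K| * G) / (|K| * G + 1)) ≤ c / 2 * 1 :=
          mul_le_mul_of_nonneg_left h12 (by positivity)
      _ = c / 2 := mul_one _
  linarith [hk.mass]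

end Pool.Agent.H37.SB
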