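import Pool.Agent.H37.SB.Bas

/-!
# Module GaC: Gaussian averages

`c_a = ∫ exp(-a|z|²) > 0`. `ga a k p = (1/c_a) ∫ k(p+z) exp(-a|z|²) dz = (1/c_a) exp(-a|p|²) NN a k p` (substitute `v = p+z`: `-a|v-p|² = -a|v|²+2a p·v - a|p|²`): `ga_eq`. `0 ≤ ga ≤ K` (`ga_le`).
* `ga_L2`: `ga a k p - k p = (1/c_a) ∫ (k(p+z) - k(p)) exp(-a|z|²) dz`; Cauchy-Schwarz (Jensen) `(..)² ≤ (1/c_a) ∫ (k(p+z)-k(p))² exp(-a|z|²) dz`; integrate over `p`, Fubini (everything is bounded by Gaussians): `∫ (ga - k)² ≤ (1/c_a) ∫ exp(-a|z|²) m(z) dz`, `m(z) = ∫ (k(p+z)-k p)² dp ≤ ε` for `‖z‖ ≤ z₀` and `≤ 4 ∫ k² ≤ 4K² ∫ gau` always. Tail: `(1/c_a) ∫_{‖z‖>z₀} exp(-a|z|²) ≤ (1/(z₀² c_a)) ∫ |z|² exp(-a|z|²) = (1/(a z₀²)) (∫ |y|² exp(-|y|²))/(∫ exp(-|y|²))` (scaling `z = y/√a`, `Measure.integral_comp_smul`; or any other proof that it tends to `0` as `a → ∞`). Choose `a` large: total `≤ 2ε`.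
-/

set_option autoImplicit false

open MeasureTheory Set Filter Topology Pool.Agent.H25.Kin Pool.Agent.H37.LT
open Pool.Agent.H15.AV (gau UNice)

namespace Pool.Agent.H37.SB

variable {d : ℕ}

private lemma gac_int {a : ℝ} (ha : 0 < a) :
    Integrable (fun v : Vec d => Real.exp (-(a * nsq v))) := by
  have h : (fun v : Vec d => Real.exp (-(a * nsq v))) =
      fun v : Vec d => ∏ i, Real.exp (-a * (v i) ^ 2) := by
    funext v
    unfold nsq
    rw [← Real.exp_sum, Finset.mul_sum, ← Finset.sum_neg_distrib]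
    congr 1
    exact Finset.sum_congr rfl fun i _ => by ring
  rw [h]
  exact MeasureTheory.Integrable.fintype_prod (f := fun (_ : Fin d) (x : ℝ) => Real.exp (-a * x ^ 2))
    (fun i => integrable_exp_neg_mul_sq ha)

private lemma gac_cont (a : ℝ) : Continuous fun v : Vec d => Real.exp (-(a * nsq v)) := by
  unfold nsq
  fun_prop

private lemma gac_pos {a : ℝ} (ha : 0 < a) : 0 < ∫ z : Vec d, Real.exp (-(a * nsq z)) := by
  refine (integral_pos_iff_support_of_nonneg (fun z => (Real.exp_pos _).le) (gac_int ha)).2 ?_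
  have h : Function.support (fun z : Vec d => Real.exp (-(a * nsq z))) = univ := by
    ext z
    simp [Real.exp_ne_zero]
  rw [h]
  exact Measure.measure_univ_pos.2 (NeZero.ne _)

private lemma gac_gau : (fun v : Vec d => gau v) = fun v : Vec d => Real.exp (-(1 * nsq v)) := by
  funext v
  unfold gau
  rw [one_mul]

private lemma gac_gint : Integrable (fun v : Vec d => gau v) := by
  rw [gac_gau]
  exact gac_int one_pos

private lemma gac_gpos (v : Vec d) : 0 < gau v := Real.exp_pos _

private lemma gac_gle (v : Vec d) : gau v ≤ 1 := by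
  unfold gau
  have := sq_nonneg' v
  exact Real.exp_le_one_iff.2 (by linarith)

private lemma gac_K {K c : ℝ} {k : Vec d → ℝ} (hk : KC K c k) : 0 ≤ K := by
  have h1 := (hk.nn 0).trans (hk.le 0)
  by_contra h
  push Not at h
  have := mul_neg_of_neg_of_pos h (gac_gpos (0 : Vec d))
  linarith

private lemma gac_kK {K c : ℝ} {k : Vec d → ℝ} (hk : KC K c k) (v : Vec d) : k v ≤ K :=
  (hk.le v).trans (mul_le_of_le_one_right (gac_K hk) (gac_gle v))

private lemma gac_nint {a : ℝ} (ha : 0 < a) :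
    Integrable (fun v : Vec d => nsq v * Real.exp (-(a * nsq v))) := by
  refine ((gac_int (d := d) (half_pos ha)).const_mul (2 / a)).mono'
    (continuous_sq.mul (gac_cont a)).aestronglyMeasurable (Eventually.of_forall fun v => ?_)
  have h0 := sq_nonneg' v
  rw [Real.norm_eq_abs, abs_of_nonneg (mul_nonneg h0 (Real.exp_pos _).le)]
  have h1 : nsq v ≤ 2 / a * Real.exp (a / 2 * nsq v) := by
    have h2 := Real.add_one_le_exp (a / 2 * nsq v)
    have h3 : nsq v = 2 / a * (a / 2 * nsq v) := by field_simp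
    calc nsq v = 2 / a * (a / 2 * nsq v) := h3
      _ ≤ 2 / a * Real.exp (a / 2 * nsq v) := mul_le_mul_of_nonneg_left (by linarith) (by positivity)
  calc nsq v * Real.exp (-(a * nsq v))
      ≤ 2 / a * Real.exp (a / 2 * nsq v) * Real.exp (-(a * nsq v)) :=
        mul_le_mul_of_nonneg_right h1 (Real.exp_pos _).le
    _ = 2 / a * Real.exp (-(a / 2 * nsq v)) := by
        rw [mul_assoc, ← Real.exp_add]
        congr 2
        ring

/-- the second moment of the Gaussian -/
private lemma gac_mom {a : ℝ} (ha : 0 < a) :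
    (∫ z : Vec d, nsq z * Real.exp (-(a * nsq z))) * (a * ∫ z : Vec d, gau z) =
      (∫ z : Vec d, nsq z * gau z) * ∫ z : Vec d, Real.exp (-(a * nsq z)) := by
  have hs : Real.sqrt a ^ 2 = a := Real.sq_sqrt ha.le
  have h1 := Measure.integral_comp_smul (volume : Measure (Vec d)) (fun y => gau y) (Real.sqrt a)
  have h2 := Measure.integral_comp_smul (volume : Measure (Vec d)) (fun y => nsq y * gau y)
    (Real.sqrt a)
  simp only [gau, nsq_smul, hs] at h1 h2
  have e : ∫ z : Vec d, a * nsq z * Real.exp (-(a * nsq z)) =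
      a * ∫ z : Vec d, nsq z * Real.exp (-(a * nsq z)) := by
    rw [← integral_const_mul]
    exact integral_congr_ae (Eventually.of_forall fun z => mul_assoc _ _ _)
  rw [e] at h2
  rw [h1]
  simp only [smul_eq_mul] at h2 ⊢
  unfold gau
  calc (∫ z : Vec d, nsq z * Real.exp (-(a * nsq z))) * (a * ∫ z : Vec d, Real.exp (-nsq z))
      = (a * ∫ z : Vec d, nsq z * Real.exp (-(a * nsq z))) * ∫ z : Vec d, Real.exp (-nsq z) := by
        ring
    _ = _ := by rw [h2]; ring

theorem ga_eq {a : ℝ} (ha : 0 < a) (k : Vec d → ℝ) (p : Vec d) :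
    ga a k p = Real.exp (-(a * nsq p)) * NN a k p / ∫ z : Vec d, Real.exp (-(a * nsq z)) := by
  unfold ga
  congr 1
  unfold NN
  rw [← integral_const_mul, ← integral_add_left_eq_self (fun v : Vec d =>
    Real.exp (-(a * nsq p)) * (k v * eN a p v)) p]
  refine integral_congr_ae (Eventually.of_forall fun z => ?_)
  beta_reduce
  unfold eN
  rw [nsq_add, dot_add, dot_self, mul_left_comm, ← Real.exp_add]
  congr 2
  ring

theorem ga_le {a K c : ℝ} (ha : 0 < a) {k : Vec d → ℝ} (hk : KC K c k) (p : Vec d) :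
    ga a k p ≤ K := by
  have hc := gac_pos (d := d) ha
  unfold ga
  rw [div_le_iff₀ hc, ← integral_const_mul]
  refine integral_mono_of_nonneg (Eventually.of_forall fun z => ?_) ((gac_int ha).const_mul K)
    (Eventually.of_forall fun z => ?_)
  · exact mul_nonneg (hk.nn _) (Real.exp_pos _).le
  · exact mul_le_mul_of_nonneg_right (gac_kK hk _) (Real.exp_pos _).le

private lemma gac_gtr (z : Vec d) : Integrable (fun v : Vec d => gau (v + z)) :=
  gac_gint.comp_add_right z

/-- the square of the difference -/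
private lemma gac_sq {K c : ℝ} {k : Vec d → ℝ} (hk : KC K c k) (v w : Vec d) :
    (k v - k w) ^ 2 ≤ 2 * K ^ 2 * (gau v + gau w) := by
  have hK := gac_K hk
  have h1 : ∀ u : Vec d, k u ^ 2 ≤ K ^ 2 * gau u := by
    intro u
    have h2 : k u ^ 2 ≤ (K * gau u) ^ 2 := pow_le_pow_left₀ (hk.nn u) (hk.le u) 2
    have h3 : gau u ^ 2 ≤ gau u := by
      rw [sq]
      exact mul_le_of_le_one_right (gac_gpos u).le (gac_gle u)
    rw [mul_pow] at h2
    exact h2.trans (mul_le_mul_of_nonneg_left h3 (sq_nonneg K))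
  have h4 := h1 v
  have h5 := h1 w
  nlinarith [sq_nonneg (k v + k w)]

private lemma gac_m {K c : ℝ} {k : Vec d → ℝ} (hk : KC K c k) (z : Vec d) :
    Integrable (fun v => (k (v + z) - k v) ^ 2) ∧
      ∫ v, (k (v + z) - k v) ^ 2 ≤ 4 * K ^ 2 * ∫ v : Vec d, gau v := by
  have hi : Integrable fun v : Vec d => 2 * K ^ 2 * (gau (v + z) + gau v) :=
    ((gac_gtr z).add gac_gint).const_mul _
  have hc : Continuous fun v => (k (v + z) - k v) ^ 2 :=
    ((hk.cont.comp (continuous_id.add continuous_const)).sub hk.cont).pow 2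
  have h1 : Integrable (fun v => (k (v + z) - k v) ^ 2) :=
    hi.mono' hc.aestronglyMeasurable (Eventually.of_forall fun v => by
      rw [Real.norm_eq_abs, abs_of_nonneg (sq_nonneg _)]
      exact gac_sq hk _ _)
  refine ⟨h1, (integral_mono h1 hi fun v => gac_sq hk _ _).trans (le_of_eq ?_)⟩
  rw [integral_const_mul, integral_add (gac_gtr z) gac_gint,
    integral_add_right_eq_self (fun v : Vec d => gau v) z]
  ring

/-- Jensen -/
private lemma gac_jen {a K c : ℝ} (ha : 0 < a) {k : Vec d → ℝ} (hk : KC K c k) (p : Vec d) :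
    Integrable (fun z => (k (p + z) - k p) ^ 2 * Real.exp (-(a * nsq z))) ∧
      (∫ z : Vec d, Real.exp (-(a * nsq z))) * (ga a k p - k p) ^ 2 ≤
        ∫ z, (k (p + z) - k p) ^ 2 * Real.exp (-(a * nsq z)) := by
  have hc := gac_pos (d := d) ha
  have hK := gac_K hk
  have hD : Continuous fun z => k (p + z) - k p :=
    (hk.cont.comp (continuous_const.add continuous_id)).sub continuous_const
  have hb : ∀ z, |k (p + z) - k p| ≤ K := by
    intro z
    have h1 := hk.nn (p + z)
    have h2 := hk.nn p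
    have h3 := gac_kK hk (p + z)
    have h4 := gac_kK hk p
    rw [abs_le]
    constructor <;> linarith
  have i1 : Integrable fun z => (k (p + z) - k p) * Real.exp (-(a * nsq z)) := by
    refine ((gac_int ha).const_mul K).mono' (hD.mul (gac_cont a)).aestronglyMeasurable
      (Eventually.of_forall fun z => ?_)
    rw [Real.norm_eq_abs, abs_mul, abs_of_pos (Real.exp_pos _)]
    exact mul_le_mul_of_nonneg_right (hb z) (Real.exp_pos _).le
  have i2 : Integrable fun z => (k (p + z) - k p) ^ 2 * Real.exp (-(a * nsq z)) := by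
    refine ((gac_int ha).const_mul (K ^ 2)).mono' ((hD.pow 2).mul (gac_cont a)).aestronglyMeasurable
      (Eventually.of_forall fun z => ?_)
    rw [Real.norm_eq_abs, abs_mul, abs_of_pos (Real.exp_pos _), abs_of_nonneg (sq_nonneg _),
      ← sq_abs (k (p + z) - k p)]
    exact mul_le_mul_of_nonneg_right (pow_le_pow_left₀ (abs_nonneg _) (hb z) 2) (Real.exp_pos _).le
  refine ⟨i2, ?_⟩
  have i0 : Integrable fun z : Vec d => Real.exp (-(a * nsq z)) := gac_int ha
  have ik : Integrable fun z => k (p + z) * Real.exp (-(a * nsq z)) := by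
    refine (i1.add (i0.const_mul (k p))).congr (Eventually.of_forall fun z => ?_)
    simp only [Pi.add_apply]
    ring
  have e1 : ∫ z, (k (p + z) - k p) * Real.exp (-(a * nsq z)) =
      (ga a k p - k p) * ∫ z : Vec d, Real.exp (-(a * nsq z)) := by
    have e2 : ∫ z, (k (p + z) - k p) * Real.exp (-(a * nsq z)) =
        (∫ z, k (p + z) * Real.exp (-(a * nsq z))) - k p * ∫ z : Vec d, Real.exp (-(a * nsq z)) := by
      rw [← integral_const_mul, ← integral_sub ik (i0.const_mul (k p))]
      exact integral_congr_ae (Eventually.of_forall fun z => sub_mul _ _ _)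
    rw [e2]
    unfold ga
    rw [sub_mul, div_mul_cancel₀ _ hc.ne']
  set m := ga a k p - k p with hm
  have h5 : 0 ≤ ∫ z, (k (p + z) - k p - m) ^ 2 * Real.exp (-(a * nsq z)) :=
    integral_nonneg fun z => mul_nonneg (sq_nonneg _) (Real.exp_pos _).le
  have e3 : ∫ z, (k (p + z) - k p - m) ^ 2 * Real.exp (-(a * nsq z)) =
      (∫ z, (k (p + z) - k p) ^ 2 * Real.exp (-(a * nsq z))) -
        (2 * m * (∫ z, (k (p + z) - k p) * Real.exp (-(a * nsq z))) -
          m ^ 2 * ∫ z : Vec d, Real.exp (-(a * nsq z))) := by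
    have i4 : Integrable fun z => 2 * m * ((k (p + z) - k p) * Real.exp (-(a * nsq z))) -
        m ^ 2 * Real.exp (-(a * nsq z)) := (i1.const_mul (2 * m)).sub (i0.const_mul (m ^ 2))
    rw [← integral_const_mul, ← integral_const_mul,
      ← integral_sub (i1.const_mul (2 * m)) (i0.const_mul (m ^ 2)), ← integral_sub i2 i4]
    exact integral_congr_ae (Eventually.of_forall fun z => by beta_reduce; ring)
  rw [e3, e1] at h5
  nlinarith

private lemma gac_meas {a : ℝ} {k : Vec d → ℝ} (hk : Continuous k) :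
    StronglyMeasurable (ga a k) := by
  have h : Continuous fun q : Vec d × Vec d => k (q.1 + q.2) * Real.exp (-(a * nsq q.2)) :=
    (hk.comp (continuous_fst.add continuous_snd)).mul ((gac_cont a).comp continuous_snd)
  have h2 := h.stronglyMeasurable.integral_prod_right' (ν := (volume : Measure (Vec d)))
  have e : ga a k = fun p => (∫ z, k (p + z) * Real.exp (-(a * nsq z))) *
      (∫ z : Vec d, Real.exp (-(a * nsq z)))⁻¹ := by
    funext p
    unfold ga
    rw [div_eq_mul_inv]
  rw [e]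
  exact h2.mul_const _

theorem ga_L2 (d : ℕ) {K c z₀ ε : ℝ} (hz : 0 < z₀) (hε : 0 < ε) : ∃ a > 0, ∀ k : Vec d → ℝ,
    KC K c k → (∀ z : Vec d, ‖z‖ ≤ z₀ → ∫ v, (k (v + z) - k v) ^ 2 ≤ ε) →
      Integrable (fun p => (ga a k p - k p) ^ 2) ∧ ∫ p, (ga a k p - k p) ^ 2 ≤ 2 * ε := by
  have hG : 0 < ∫ v : Vec d, gau v := by
    rw [gac_gau]
    exact gac_pos one_pos
  have hS : 0 ≤ ∫ z : Vec d, nsq z * gau z :=
    integral_nonneg fun z => mul_nonneg (sq_nonneg' z) (gac_gpos z).le
  obtain ⟨G, hGd⟩ : ∃ G : ℝ, G = ∫ v : Vec d, gau v := ⟨_, rfl⟩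
  obtain ⟨S, hSd⟩ : ∃ S : ℝ, S = ∫ z : Vec d, nsq z * gau z := ⟨_, rfl⟩
  rw [← hGd] at hG
  rw [← hSd] at hS
  obtain ⟨M, hM⟩ : ∃ M : ℝ, M = 4 * K ^ 2 * G := ⟨_, rfl⟩
  have hM0 : 0 ≤ M := by rw [hM]; positivity
  have hq : 0 ≤ M * S / (ε * z₀ ^ 2 * G) := by positivity
  obtain ⟨a, had⟩ : ∃ a : ℝ, a = M * S / (ε * z₀ ^ 2 * G) + 1 := ⟨_, rfl⟩
  have ha : 0 < a := by rw [had]; linarith
  have haM : M * S ≤ a * (ε * z₀ ^ 2 * G) := by
    have h1 : M * S / (ε * z₀ ^ 2 * G) ≤ a := by rw [had]; linarith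
    rwa [div_le_iff₀ (by positivity)] at h1
  refine ⟨a, ha, fun k hk hz1 => ?_⟩
  obtain ⟨ca, hca⟩ : ∃ ca : ℝ, ca = ∫ z : Vec d, Real.exp (-(a * nsq z)) := ⟨_, rfl⟩
  have hc : 0 < ca := by rw [hca]; exact gac_pos ha
  obtain ⟨Sa, hSa⟩ : ∃ Sa : ℝ, Sa = ∫ z : Vec d, nsq z * Real.exp (-(a * nsq z)) := ⟨_, rfl⟩
  have hmom : Sa * (a * G) = S * ca := by
    rw [hSa, hGd, hSd, hca]
    exact gac_mom ha
  -- the modulus of continuity
  have hm : ∀ z : Vec d, ∫ v, (k (v + z) - k v) ^ 2 ≤ ε + M / z₀ ^ 2 * nsq z := by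
    intro z
    by_cases h1 : ‖z‖ ≤ z₀
    · have h2 : 0 ≤ M / z₀ ^ 2 * nsq z := mul_nonneg (by positivity) (sq_nonneg' z)
      linarith [hz1 z h1]
    · push Not at h1
      have h2 := (gac_m hk z).2
      rw [← hGd, ← hM] at h2
      have h3 := norm_sq_le_sq z
      have h4 : z₀ ^ 2 ≤ nsq z := (pow_le_pow_left₀ hz.le h1.le 2).trans h3
      have h5 : M ≤ M / z₀ ^ 2 * nsq z := by
        rw [div_mul_eq_mul_div, le_div_iff₀ (by positivity)]
        exact mul_le_mul_of_nonneg_left h4 hM0
      linarith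
  have hkc := hk.cont
  -- lower integrals
  have hcont : Continuous fun q : Vec d × Vec d =>
      (k (q.1 + q.2) - k q.1) ^ 2 * Real.exp (-(a * nsq q.2)) :=
    (((hkc.comp (continuous_fst.add continuous_snd)).sub (hkc.comp continuous_fst)).pow 2).mul
      ((gac_cont a).comp continuous_snd)
  have key : ENNReal.ofReal ca * ∫⁻ p, ENNReal.ofReal ((ga a k p - k p) ^ 2) ≤
      ENNReal.ofReal (ca * (2 * ε)) := by
    calc ENNReal.ofReal ca * ∫⁻ p, ENNReal.ofReal ((ga a k p - k p) ^ 2)
        = ∫⁻ p, ENNReal.ofReal (ca * (ga a k p - k p) ^ 2) := by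
          rw [← lintegral_const_mul' _ _ ENNReal.ofReal_ne_top]
          exact lintegral_congr fun p => (ENNReal.ofReal_mul hc.le).symm
      _ ≤ ∫⁻ p, ∫⁻ z, ENNReal.ofReal ((k (p + z) - k p) ^ 2 * Real.exp (-(a * nsq z))) := by
          refine lintegral_mono fun p => ?_
          obtain ⟨j1, j2⟩ := gac_jen ha hk p
          rw [← hca] at j2
          rw [← ofReal_integral_eq_lintegral_ofReal j1 (Eventually.of_forall fun z =>
            mul_nonneg (sq_nonneg _) (Real.exp_pos _).le)]
          exact ENNReal.ofReal_le_ofReal j2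
      _ = ∫⁻ z, ∫⁻ p, ENNReal.ofReal ((k (p + z) - k p) ^ 2 * Real.exp (-(a * nsq z))) := by
          refine lintegral_lintegral_swap ?_
          exact hcont.measurable.ennreal_ofReal.aemeasurable
      _ ≤ ∫⁻ z : Vec d, ENNReal.ofReal (ε * Real.exp (-(a * nsq z)) +
            M / z₀ ^ 2 * (nsq z * Real.exp (-(a * nsq z)))) := by
          refine lintegral_mono fun z => ?_
          have hg : 0 < Real.exp (-(a * nsq z)) := Real.exp_pos _
          have i1 := (gac_m hk z).1
          rw [← ofReal_integral_eq_lintegral_ofReal (i1.mul_const _) (Eventually.of_forall fun p =>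
            mul_nonneg (sq_nonneg _) hg.le)]
          refine ENNReal.ofReal_le_ofReal ?_
          rw [integral_mul_const]
          calc (∫ v, (k (v + z) - k v) ^ 2) * Real.exp (-(a * nsq z))
              ≤ (ε + M / z₀ ^ 2 * nsq z) * Real.exp (-(a * nsq z)) :=
                mul_le_mul_of_nonneg_right (hm z) hg.le
            _ = _ := by ring
      _ = ENNReal.ofReal (ε * ca + M / z₀ ^ 2 * Sa) := by
          have i2 : Integrable fun z : Vec d => ε * Real.exp (-(a * nsq z)) :=
            (gac_int ha).const_mul ε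
          have i3 : Integrable fun z : Vec d => M / z₀ ^ 2 * (nsq z * Real.exp (-(a * nsq z))) :=
            (gac_nint ha).const_mul _
          have i4 : Integrable fun z : Vec d => ε * Real.exp (-(a * nsq z)) +
              M / z₀ ^ 2 * (nsq z * Real.exp (-(a * nsq z))) := i2.add i3
          rw [← ofReal_integral_eq_lintegral_ofReal i4 (Eventually.of_forall fun z => ?_)]
          · congr 1
            have e1 := integral_add i2 i3
            rw [integral_const_mul, integral_const_mul, ← hca, ← hSa] at e1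
            exact e1
          · have h1 := Real.exp_pos (-(a * nsq z))
            have h2 := sq_nonneg' z
            simp only [Pi.zero_apply]
            positivity
      _ ≤ ENNReal.ofReal (ca * (2 * ε)) := by
          refine ENNReal.ofReal_le_ofReal ?_
          have h1 : M / z₀ ^ 2 * Sa ≤ ε * ca := by
            rw [div_mul_eq_mul_div, div_le_iff₀ (by positivity)]
            have h2 : M * Sa * (a * G) ≤ ε * ca * z₀ ^ 2 * (a * G) := by
              calc M * Sa * (a * G) = M * (Sa * (a * G)) := by ring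
                _ = M * S * ca := by rw [hmom]; ring
                _ ≤ a * (ε * z₀ ^ 2 * G) * ca := mul_le_mul_of_nonneg_right haM hc.le
                _ = _ := by ring
            exact le_of_mul_le_mul_right h2 (by positivity)
          linarith
  have key2 : ∫⁻ p, ENNReal.ofReal ((ga a k p - k p) ^ 2) ≤ ENNReal.ofReal (2 * ε) := by
    rw [ENNReal.ofReal_mul hc.le] at key
    exact (ENNReal.mul_le_mul_iff_right (ENNReal.ofReal_pos.2 hc).ne' ENNReal.ofReal_ne_top).1 key
  have hsm : StronglyMeasurable fun p => (ga a k p - k p) ^ 2 :=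
    ((gac_meas hkc).sub hkc.stronglyMeasurable).pow 2
  refine ⟨⟨hsm.aestronglyMeasurable, ?_⟩, ?_⟩
  · rw [hasFiniteIntegral_iff_ofReal (Eventually.of_forall fun p => sq_nonneg _)]
    exact key2.trans_lt ENNReal.ofReal_lt_top
  · rw [integral_eq_lintegral_of_nonneg_ae (Eventually.of_forall fun p => sq_nonneg _)
      hsm.aestronglyMeasurable]
    exact ENNReal.toReal_le_of_le_ofReal (by positivity) key2

end Pool.Agent.H37.SB
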