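import Pool.Agent.H37.LT.Defs

/-!
# Module Lin: linear algebra

`H(p) = F p - F 0`. For `τ = y_j e_i - y_i e_j`, `y = p - q`: `dot τ y = 0`, `len τ ≤ 2 ‖y‖` (`len τ = √(y_i²+y_j²)`), so (with `q = 0`) `|p_j H_i(p) - p_i H_j(p)| ≤ 2κ‖p‖ ≤ 2κR`.
`i₀ ≠ i₁` two indices, `P = R e_{i₀}`. For `j ≠ i₀`: `τ = e_j`, `q = 0`: `|H_j(P)| ≤ κ`. `c = H_{i₀}(P)/R`. With `q = P`, `j = i₀`, `i ≠ i₀`: `|(p_{i₀} - R)(H_i(p) - H_i(P)) - p_i (H_{i₀}(p) - H_{i₀}(P))| ≤ 2κ·2R`; expand and subtract: `|R H_i(p) - R c p_i| ≤ 4κR + 2κR + 2Rκ = 8κR`, so `|H_i(p) - c p_i| ≤ 8κ`, `i ≠ i₀`. The same with `P' = R e_{i₁}`, `c' = H_{i₁}(P')/R`: `|H_i(p) - c' p_i| ≤ 8κ` for `i ≠ i₁`. The first with `p = P'`, `i = i₁`: `|c' - c| R ≤ 8κ`. So `|H_{i₀}(p) - c p_{i₀}| ≤ 8κ + |c'-c| R ≤ 16κ`.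
-/

set_option autoImplicit false

open MeasureTheory Set Filter Topology Pool.Agent.H25.Kin Pool.Agent.H37.LT

namespace Pool.Agent.H37.SB

variable {d : ℕ}

theorem Lin_dot (i j : Fin d) (a b : ℝ) (z : Vec d) :
    dot (Pi.single i a - Pi.single j b : Vec d) z = a * z i - b * z j := by
  unfold dot
  simp only [Pi.sub_apply, sub_mul, Finset.sum_sub_distrib]
  congr 1
  · rw [Finset.sum_eq_single i]
    · rw [Pi.single_eq_same]
    · intro k _ hk
      rw [Pi.single_eq_of_ne hk, zero_mul]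
    · intro hk
      exact absurd (Finset.mem_univ i) hk
  · rw [Finset.sum_eq_single j]
    · rw [Pi.single_eq_same]
    · intro k _ hk
      rw [Pi.single_eq_of_ne hk, zero_mul]
    · intro hk
      exact absurd (Finset.mem_univ j) hk

theorem Lin_len {i j : Fin d} (hij : i ≠ j) (a b : ℝ) :
    len (Pi.single i a - Pi.single j b : Vec d) ≤ |a| + |b| := by
  have h1 : nsq (Pi.single i a - Pi.single j b : Vec d) =
      dot (Pi.single i a - Pi.single j b : Vec d) (Pi.single i a - Pi.single j b : Vec d) := by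
    unfold nsq dot
    refine Finset.sum_congr rfl fun k _ => ?_
    ring
  have h2 : nsq (Pi.single i a - Pi.single j b : Vec d) = a ^ 2 + b ^ 2 := by
    rw [h1, Lin_dot]
    rw [Pi.sub_apply, Pi.sub_apply, Pi.single_eq_same, Pi.single_eq_same,
      Pi.single_eq_of_ne hij, Pi.single_eq_of_ne hij.symm]
    ring
  unfold len
  rw [h2]
  refine Real.sqrt_le_iff.2 ⟨by positivity, ?_⟩
  nlinarith [abs_nonneg a, abs_nonneg b, sq_abs a, sq_abs b,
    mul_nonneg (abs_nonneg a) (abs_nonneg b)]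

theorem Lin_pair {R κ : ℝ} {F : Vec d → Vec d}
    (h : ∀ p q τ : Vec d, ‖p‖ ≤ R → ‖q‖ ≤ R → dot τ (p - q) = 0 →
      |dot τ (F p - F q)| ≤ κ * len τ) (hκ : 0 ≤ κ) {i j : Fin d} (hij : i ≠ j)
    {p q : Vec d} (hp : ‖p‖ ≤ R) (hq : ‖q‖ ≤ R) :
    |(p j - q j) * (F p i - F q i) - (p i - q i) * (F p j - F q j)| ≤
      κ * (|p j - q j| + |p i - q i|) := by
  have h1 := h p q (Pi.single i (p j - q j) - Pi.single j (p i - q i)) hp hq (by
    rw [Lin_dot, Pi.sub_apply, Pi.sub_apply]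
    ring)
  rw [Lin_dot, Pi.sub_apply, Pi.sub_apply] at h1
  exact h1.trans (mul_le_mul_of_nonneg_left (Lin_len hij _ _) hκ)

theorem Lin_single {R κ : ℝ} {F : Vec d → Vec d}
    (h : ∀ p q τ : Vec d, ‖p‖ ≤ R → ‖q‖ ≤ R → dot τ (p - q) = 0 →
      |dot τ (F p - F q)| ≤ κ * len τ) (hκ : 0 ≤ κ) {i j : Fin d} (hij : i ≠ j)
    {p : Vec d} (hp : ‖p‖ ≤ R) (hR : 0 ≤ R) (hpi : p i = 0) :
    |F p i - F 0 i| ≤ κ := by
  have h1 := h p 0 (Pi.single i 1 - Pi.single j 0) hp (by rw [norm_zero]; exact hR) (by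
    rw [Lin_dot, Pi.sub_apply, Pi.sub_apply, hpi, Pi.zero_apply]
    ring)
  rw [Lin_dot, Pi.sub_apply, Pi.sub_apply, one_mul, zero_mul, sub_zero] at h1
  refine h1.trans ?_
  have h2 := Lin_len hij (1 : ℝ) 0
  rw [abs_one, abs_zero, add_zero] at h2
  calc κ * len (Pi.single i 1 - Pi.single j 0 : Vec d) ≤ κ * 1 :=
        mul_le_mul_of_nonneg_left h2 hκ
    _ = κ := mul_one _

/-- off the axis `i0` -/
theorem Lin_off {R κ : ℝ} {F : Vec d → Vec d}
    (h : ∀ p q τ : Vec d, ‖p‖ ≤ R → ‖q‖ ≤ R → dot τ (p - q) = 0 →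
      |dot τ (F p - F q)| ≤ κ * len τ) (hR : 0 < R) (hκ : 0 ≤ κ) {i0 i : Fin d} (hi : i ≠ i0)
    {p : Vec d} (hp : ‖p‖ ≤ R) :
    |F p i - F 0 i - (F (Pi.single i0 R) i0 - F 0 i0) / R * p i| ≤ 8 * κ := by
  have hPn : ‖(Pi.single i0 R : Vec d)‖ ≤ R := by
    rw [pi_norm_le_iff_of_nonneg hR.le]
    intro k
    by_cases hk : k = i0
    · subst hk
      rw [Pi.single_eq_same, Real.norm_eq_abs, abs_of_pos hR]
    · rw [Pi.single_eq_of_ne hk, norm_zero]
      exact hR.le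
  have hPi : (Pi.single i0 R : Vec d) i = 0 := Pi.single_eq_of_ne hi _
  have hP0 : (Pi.single i0 R : Vec d) i0 = R := Pi.single_eq_same _ _
  have h0n : ‖(0 : Vec d)‖ ≤ R := by
    rw [norm_zero]
    exact hR.le
  have hc : ∀ k, |p k| ≤ R := fun k => (norm_le_pi_norm p k).trans hp
  have h1 := Lin_pair h hκ hi hp hPn
  have h2 := Lin_pair h hκ hi hp h0n
  have h3 := Lin_single h hκ hi hPn hR.le hPi
  rw [hPi, hP0, sub_zero] at h1
  rw [Pi.zero_apply, Pi.zero_apply, sub_zero, sub_zero] at h2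
  have hci := hc i
  have hc0 := hc i0
  have hca : |p i0 - R| ≤ 2 * R := by
    have := abs_le.1 hc0
    exact abs_le.2 ⟨by linarith, by linarith⟩
  have h1' : |(p i0 - R) * (F p i - F (Pi.single i0 R) i) -
      p i * (F p i0 - F (Pi.single i0 R) i0)| ≤ 3 * (κ * R) := by
    refine h1.trans ?_
    calc κ * (|p i0 - R| + |p i|) ≤ κ * (2 * R + R) :=
          mul_le_mul_of_nonneg_left (add_le_add hca hci) hκ
      _ = 3 * (κ * R) := by ring
  have h2' : |p i0 * (F p i - F 0 i) - p i * (F p i0 - F 0 i0)| ≤ 2 * (κ * R) := by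
    refine h2.trans ?_
    calc κ * (|p i0| + |p i|) ≤ κ * (R + R) :=
          mul_le_mul_of_nonneg_left (add_le_add hc0 hci) hκ
      _ = 2 * (κ * R) := by ring
  have h3' : |(p i0 - R) * (F (Pi.single i0 R) i - F 0 i)| ≤ 2 * (κ * R) := by
    rw [abs_mul]
    calc |p i0 - R| * |F (Pi.single i0 R) i - F 0 i| ≤ (2 * R) * κ :=
          mul_le_mul hca h3 (abs_nonneg _) (by positivity)
      _ = 2 * (κ * R) := by ring
  have h4 : R * (F p i - F 0 i - (F (Pi.single i0 R) i0 - F 0 i0) / R * p i) =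
      -((p i0 - R) * (F p i - F (Pi.single i0 R) i) - p i * (F p i0 - F (Pi.single i0 R) i0)) +
      (p i0 * (F p i - F 0 i) - p i * (F p i0 - F 0 i0)) -
      (p i0 - R) * (F (Pi.single i0 R) i - F 0 i) := by
    field_simp
    ring
  have h5 : |R * (F p i - F 0 i - (F (Pi.single i0 R) i0 - F 0 i0) / R * p i)| ≤
      R * (8 * κ) := by
    rw [h4]
    have a1 := abs_le.1 h1'
    have a2 := abs_le.1 h2'
    have a3 := abs_le.1 h3'
    have hk : 0 ≤ κ * R := mul_nonneg hκ hR.le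
    refine abs_le.2 ⟨by nlinarith [a1.1, a1.2, a2.1, a2.2, a3.1, a3.2],
      by nlinarith [a1.1, a1.2, a2.1, a2.2, a3.1, a3.2]⟩
  rw [abs_mul, abs_of_pos hR] at h5
  exact le_of_mul_le_mul_left h5 hR

theorem lin (hd : 2 ≤ d) {R κ : ℝ} (hR : 0 < R) (hκ : 0 ≤ κ) {F : Vec d → Vec d}
    (h : ∀ p q τ : Vec d, ‖p‖ ≤ R → ‖q‖ ≤ R → dot τ (p - q) = 0 →
      |dot τ (F p - F q)| ≤ κ * len τ) :
    ∃ c : ℝ, ∀ p : Vec d, ‖p‖ ≤ R → ∀ i, |F p i - F 0 i - c * p i| ≤ 16 * κ := by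
  have h01 : (⟨0, by omega⟩ : Fin d) ≠ ⟨1, by omega⟩ := by
    intro hh
    have := congrArg Fin.val hh
    simp at this
  obtain ⟨i0, i1, hne⟩ : ∃ i0 i1 : Fin d, i0 ≠ i1 := ⟨_, _, h01⟩
  have hPn : ‖(Pi.single i1 R : Vec d)‖ ≤ R := by
    rw [pi_norm_le_iff_of_nonneg hR.le]
    intro k
    by_cases hk : k = i1
    · subst hk
      rw [Pi.single_eq_same, Real.norm_eq_abs, abs_of_pos hR]
    · rw [Pi.single_eq_of_ne hk, norm_zero]
      exact hR.le
  have hP1 : (Pi.single i1 R : Vec d) i1 = R := Pi.single_eq_same _ _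
  refine ⟨(F (Pi.single i0 R) i0 - F 0 i0) / R, fun p hp i => ?_⟩
  by_cases hi : i = i0
  · subst hi
    have h1 := Lin_off h hR hκ (i0 := i1) hne hp
    have h2 := Lin_off h hR hκ (i0 := i) (i := i1) hne.symm hPn
    rw [hP1] at h2
    have h3 : F (Pi.single i1 R) i1 - F 0 i1 - (F (Pi.single i R) i - F 0 i) / R * R =
        ((F (Pi.single i1 R) i1 - F 0 i1) / R - (F (Pi.single i R) i - F 0 i) / R) * R := by
      field_simp
    rw [h3, abs_mul, abs_of_pos hR] at h2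
    have hci : |p i| ≤ R := (norm_le_pi_norm p i).trans hp
    have h4 : |((F (Pi.single i1 R) i1 - F 0 i1) / R - (F (Pi.single i R) i - F 0 i) / R) * p i| ≤
        8 * κ := by
      rw [abs_mul]
      exact (mul_le_mul_of_nonneg_left hci (abs_nonneg _)).trans h2
    have h5 : F p i - F 0 i - (F (Pi.single i R) i - F 0 i) / R * p i =
        (F p i - F 0 i - (F (Pi.single i1 R) i1 - F 0 i1) / R * p i) +
        ((F (Pi.single i1 R) i1 - F 0 i1) / R - (F (Pi.single i R) i - F 0 i) / R) * p i := by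
      ring
    rw [h5]
    refine (abs_add_le _ _).trans ?_
    linarith
  · exact (Lin_off h hR hκ hi hp).trans (by linarith)

end Pool.Agent.H37.SB
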