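import Pool.Agent.H37.SB.Refl
import Pool.Agent.H37.SB.Lin

/-!
# Module LogN: `log NN` is almost a quadratic function

* `NN_deriv`: `HasDerivAt (fun t => NN a k (t • p)) (2a ∫ (dot p v) k v eN a (t•p) v) t` (dominated differentiation on `|t - t₀| < 1`: `|dot p v| k eN ≤ C gau-type bound`, e.g. `k ≤ K gau`, `eN a (t•p) v ≤ exp(a |t|² nsq p)`), and `∫ (dot p v) (k eN) = NN(t•p) dot p (mN a k (t•p))`, so `log NN(t•p)` has derivative `2a dot p (mN (t•p))` (`NN > 0`).
* `log_quad`: `C` from `mean_B`, `κ = C D`, `c` from `lin`, `F = mN a k`. `ψ(t) = log NN(t•p) - 2a t dot p (F 0) - a c t² nsq p`, `ψ'(t) = 2a ∑_i p_i (F(tp)_i - F(0)_i - c t p_i)`, `|ψ'| ≤ 2a d R 16 κ`; mean value inequality on `[0,1]`. `α = log NN(0)`, `β = 2a F(0)`, `κ' = a c`. `D₀` with `32 a d R C D₀ ≤ ε`.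
-/

set_option autoImplicit false

open MeasureTheory Set Filter Topology Pool.Agent.H25.Kin Pool.Agent.H37.LT
open Pool.Agent.H15.AV (gau UNice)

namespace Pool.Agent.H37.SB

variable {d : ℕ}

private lemma LogN_gau : Integrable (gau : Vec d → ℝ) := by
  have h : (gau : Vec d → ℝ) = fun v : Vec d => ∏ i, Real.exp (-1 * (v i) ^ 2) := by
    funext v
    unfold gau nsq
    rw [← Real.exp_sum]
    congr 1
    simp
  rw [h]
  exact MeasureTheory.Integrable.fintype_prod (f := fun (_ : Fin d) (x : ℝ) => Real.exp (-1 * x ^ 2))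
    (fun i => integrable_exp_neg_mul_sq one_pos)

private lemma LogN_dot (t : ℝ) (p v : Vec d) : dot (t • p) v = t * dot p v := by
  unfold dot
  rw [Finset.mul_sum]
  refine Finset.sum_congr rfl fun i _ => ?_
  simp only [Pi.smul_apply, smul_eq_mul]
  ring

private lemma LogN_absdot {C E : ℝ} (p v : Vec d) (hE : 0 ≤ E) (h : ∀ i, |v i| * E ≤ C) :
    |dot p v| * E ≤ (∑ i, |p i|) * C := by
  have h1 : |dot p v| ≤ ∑ i, |p i| * |v i| := by
    unfold dot
    refine (Finset.abs_sum_le_sum_abs _ _).trans (le_of_eq ?_)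
    exact Finset.sum_congr rfl fun i _ => abs_mul _ _
  calc |dot p v| * E ≤ (∑ i, |p i| * |v i|) * E := mul_le_mul_of_nonneg_right h1 hE
    _ = ∑ i, |p i| * (|v i| * E) := by
        rw [Finset.sum_mul]
        exact Finset.sum_congr rfl fun i _ => by ring
    _ ≤ ∑ i, |p i| * C := Finset.sum_le_sum fun i _ =>
        mul_le_mul_of_nonneg_left (h i) (abs_nonneg _)
    _ = _ := (Finset.sum_mul _ _ _).symm

private lemma LogN_eNc (a : ℝ) (p : Vec d) : Continuous fun v : Vec d => eN a p v :=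
  (eN_cont a).comp (by fun_prop : Continuous fun v : Vec d => ((p, v) : Vec d × Vec d))

private lemma LogN_dotc (p : Vec d) : Continuous fun v : Vec d => dot p v := by
  unfold dot
  fun_prop

private lemma LogN_deriv {K c a : ℝ} (ha : 0 < a) {k : Vec d → ℝ} (hk : KC K c k) (p : Vec d)
    (t₀ : ℝ) : HasDerivAt (fun t : ℝ => NN a k (t • p))
      (∫ v, k v * (2 * a * dot p v * eN a (t₀ • p) v)) t₀ := by
  have hR : 0 ≤ (|t₀| + 1) * ‖p‖ := by positivity
  obtain ⟨C, hC0, hC⟩ := eN_bd ha hR d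
  have hball : ∀ t ∈ Metric.ball t₀ 1, ‖t • p‖ ≤ (|t₀| + 1) * ‖p‖ := by
    intro t ht
    rw [norm_smul, Real.norm_eq_abs]
    refine mul_le_mul_of_nonneg_right ?_ (norm_nonneg _)
    have h1 : |t - t₀| < 1 := ht
    have h2 : |t| ≤ |t - t₀| + |t₀| := by
      have := abs_add_le (t - t₀) t₀
      rwa [sub_add_cancel] at this
    linarith
  have h0 : ‖t₀ • p‖ ≤ (|t₀| + 1) * ‖p‖ := hball t₀ (Metric.mem_ball_self one_pos)
  refine (hasDerivAt_integral_of_dominated_loc_of_deriv_le
    (F := fun (t : ℝ) (v : Vec d) => k v * eN a (t • p) v)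
    (F' := fun (t : ℝ) (v : Vec d) => k v * (2 * a * dot p v * eN a (t • p) v))
    (bound := fun v => (2 * a * ((∑ i, |p i|) * C)) * (K * gau v))
    (Metric.ball_mem_nhds t₀ one_pos) ?_ ?_ ?_ ?_ ?_ ?_).2
  · exact Eventually.of_forall fun t => (hk.cont.mul (LogN_eNc a _)).aestronglyMeasurable
  · refine k_int hk (LogN_eNc a _) (C := C) fun v => ?_
    rw [abs_of_pos (eN_pos _ _ _)]
    calc eN a (t₀ • p) v ≤ C := (hC _ v h0).1
      _ ≤ C * (1 + ‖v‖) := le_mul_of_one_le_right hC0 (by linarith [norm_nonneg v])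
  · exact (hk.cont.mul ((continuous_const.mul (LogN_dotc p)).mul (LogN_eNc a _))).aestronglyMeasurable
  · refine Eventually.of_forall fun v t ht => ?_
    have h1 := LogN_absdot p v (eN_pos a (t • p) v).le fun i => (hC _ v (hball t ht)).2 i
    have h2 : 0 ≤ (∑ i, |p i|) * C :=
      mul_nonneg (Finset.sum_nonneg fun i _ => abs_nonneg _) hC0
    rw [Real.norm_eq_abs, abs_mul, abs_of_nonneg (hk.nn v), abs_mul, abs_mul, abs_mul,
      abs_of_pos (eN_pos _ _ _), abs_two, abs_of_pos ha]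
    calc k v * (2 * a * |dot p v| * eN a (t • p) v)
        = (2 * a * (|dot p v| * eN a (t • p) v)) * k v := by ring
      _ ≤ (2 * a * ((∑ i, |p i|) * C)) * (K * gau v) := by
          refine mul_le_mul ?_ (hk.le v) (hk.nn v) (by positivity)
          exact mul_le_mul_of_nonneg_left h1 (by positivity)
  · exact (LogN_gau.const_mul K).const_mul _
  · refine Eventually.of_forall fun v t _ => ?_
    have e1 : (fun s : ℝ => k v * eN a (s • p) v) = fun s : ℝ =>
        k v * Real.exp (-(a * nsq v) + 2 * a * (s * dot p v)) := by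
      funext s
      unfold eN
      rw [LogN_dot]
    have h1 : HasDerivAt (fun s : ℝ => -(a * nsq v) + 2 * a * (s * dot p v)) (2 * a * dot p v) t := by
      have h2 := (((hasDerivAt_id t).mul_const (dot p v)).const_mul (2 * a)).const_add (-(a * nsq v))
      simpa using h2
    have h3 := (h1.exp).const_mul (k v)
    rw [e1]
    have e2 : eN a (t • p) v = Real.exp (-(a * nsq v) + 2 * a * (t * dot p v)) := by
      unfold eN
      rw [LogN_dot]
    rw [e2]
    convert! h3 using 1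
    ring

private lemma LogN_mean {K c a R : ℝ} (ha : 0 < a) (hR : 0 ≤ R) {k : Vec d → ℝ} (hk : KC K c k)
    (p q : Vec d) (hq : ‖q‖ ≤ R) (hN : NN a k q ≠ 0) :
    (∫ v, k v * (2 * a * dot p v * eN a q v)) / NN a k q = 2 * a * dot p (mN a k q) := by
  obtain ⟨C, hC0, hC⟩ := eN_bd ha hR d
  have hi : ∀ i : Fin d, Integrable fun v : Vec d => k v * (v i * eN a q v) := by
    intro i
    refine k_int hk ((continuous_apply i).mul (LogN_eNc a _)) (C := C) fun v => ?_
    rw [abs_mul, abs_of_pos (eN_pos _ _ _)]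
    calc |v i| * eN a q v ≤ C := (hC _ v hq).2 i
      _ ≤ C * (1 + ‖v‖) := le_mul_of_one_le_right hC0 (by linarith [norm_nonneg v])
  have e1 : (∫ v, k v * (2 * a * dot p v * eN a q v)) =
      ∑ i, 2 * a * p i * ∫ v, k v * (v i * eN a q v) := by
    have h1 : (fun v : Vec d => k v * (2 * a * dot p v * eN a q v)) =
        fun v => ∑ i, 2 * a * p i * (k v * (v i * eN a q v)) := by
      funext v
      unfold dot
      rw [Finset.mul_sum, Finset.sum_mul, Finset.mul_sum]
      exact Finset.sum_congr rfl fun i _ => by ring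
    rw [h1, integral_finsetSum _ fun i _ => (hi i).const_mul _]
    exact Finset.sum_congr rfl fun i _ => integral_const_mul _ _
  rw [e1]
  unfold dot mN
  rw [Finset.sum_div, Finset.mul_sum]
  refine Finset.sum_congr rfl fun i _ => ?_
  have h2 : (∫ v, v i * (k v * eN a q v)) = ∫ v, k v * (v i * eN a q v) := by
    congr 1
    funext v
    ring
  rw [h2]
  field_simp

theorem log_quad (hd : 2 ≤ d) {K c a R ε : ℝ} (hc : 0 < c) (ha : 0 < a) (hR : 0 < R) (hε : 0 < ε) :
    ∃ D₀ > 0, ∀ k : Vec d → ℝ, KC K c k → Fw D₀ k → ∃ (α κ : ℝ) (β : Vec d), ∀ p : Vec d, ‖p‖ ≤ R →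
      |Real.log (NN a k p) - qd α β κ p| ≤ ε := by
  have hd1 : 1 ≤ d := by omega
  obtain ⟨C, hC0, hC⟩ := mean_B (d := d) hd1 (K := K) hc ha hR.le
  obtain ⟨c₁, hc₁, hlow⟩ := NN_low d (K := K) hc ha hR.le
  have hdR : (0 : ℝ) < d := by exact_mod_cast hd1
  have hden : 0 < 32 * a * d * R * (C + 1) := by positivity
  refine ⟨ε / (32 * a * d * R * (C + 1)), by positivity, ?_⟩
  intro k hk hF
  set D₀ : ℝ := ε / (32 * a * d * R * (C + 1)) with hD₀
  have hD0 : 0 ≤ D₀ := by positivity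
  have hκ0 : 0 ≤ C * D₀ := mul_nonneg hC0 hD0
  obtain ⟨c₂, hc₂⟩ := lin hd hR hκ0 (F := mN a k) (fun p q τ hp hq h =>
    hC D₀ k hD0 hk hF p q τ hp hq h)
  refine ⟨Real.log (NN a k 0), a * c₂, (2 * a) • mN a k 0, fun p hp => ?_⟩
  have htp : ∀ t ∈ Set.Icc (0 : ℝ) 1, ‖t • p‖ ≤ R := by
    intro t ht
    rw [norm_smul, Real.norm_eq_abs, abs_of_nonneg ht.1]
    calc t * ‖p‖ ≤ 1 * ‖p‖ := mul_le_mul_of_nonneg_right ht.2 (norm_nonneg _)
      _ ≤ R := by rwa [one_mul]
  have hpos : ∀ t ∈ Set.Icc (0 : ℝ) 1, 0 < NN a k (t • p) := fun t ht =>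
    lt_of_lt_of_le hc₁ (hlow k hk _ (htp t ht))
  -- the derivative
  have hder : ∀ t ∈ Set.Icc (0 : ℝ) 1, HasDerivWithinAt
      (fun t : ℝ => Real.log (NN a k (t • p)) - 2 * a * t * dot p (mN a k 0) - a * c₂ * t ^ 2 * nsq p)
      (2 * a * dot p (mN a k (t • p)) - 2 * a * dot p (mN a k 0) - a * c₂ * (2 * t) * nsq p)
      (Set.Icc (0 : ℝ) 1) t := by
    intro t ht
    have h1 := (LogN_deriv ha hk p t).log (hpos t ht).ne'
    rw [LogN_mean ha hR.le hk p (t • p) (htp t ht) (hpos t ht).ne'] at h1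
    have h2 : HasDerivAt (fun t : ℝ => 2 * a * t * dot p (mN a k 0)) (2 * a * dot p (mN a k 0)) t := by
      have h3 := ((hasDerivAt_id t).const_mul (2 * a)).mul_const (dot p (mN a k 0))
      simpa using h3
    have h4 : HasDerivAt (fun t : ℝ => a * c₂ * t ^ 2 * nsq p) (a * c₂ * (2 * t) * nsq p) t := by
      have h5 := ((hasDerivAt_pow 2 t).const_mul (a * c₂)).mul_const (nsq p)
      simpa using h5
    exact ((h1.sub h2).sub h4).hasDerivWithinAt
  have hbd : ∀ t ∈ Set.Icc (0 : ℝ) 1,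
      ‖2 * a * dot p (mN a k (t • p)) - 2 * a * dot p (mN a k 0) - a * c₂ * (2 * t) * nsq p‖ ≤ ε := by
    intro t ht
    have e1 : 2 * a * dot p (mN a k (t • p)) - 2 * a * dot p (mN a k 0) -
        a * c₂ * (2 * t) * nsq p =
        2 * a * ∑ i, p i * (mN a k (t • p) i - mN a k 0 i - c₂ * (t • p) i) := by
      unfold dot nsq
      rw [← mul_sub, ← Finset.sum_sub_distrib]
      have h1 : a * c₂ * (2 * t) * ∑ i, p i ^ 2 = 2 * a * ∑ i, p i * (c₂ * (t • p) i) := by
        rw [Finset.mul_sum, Finset.mul_sum]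
        refine Finset.sum_congr rfl fun i _ => ?_
        simp only [Pi.smul_apply, smul_eq_mul]
        ring
      rw [h1, ← mul_sub, ← Finset.sum_sub_distrib]
      congr 1
      exact Finset.sum_congr rfl fun i _ => by ring
    rw [e1, Real.norm_eq_abs, abs_mul, abs_of_pos (by positivity : (0 : ℝ) < 2 * a)]
    have h2 : |∑ i, p i * (mN a k (t • p) i - mN a k 0 i - c₂ * (t • p) i)| ≤
        d * (R * (16 * (C * D₀))) := by
      refine (Finset.abs_sum_le_sum_abs _ _).trans ?_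
      calc ∑ i, |p i * (mN a k (t • p) i - mN a k 0 i - c₂ * (t • p) i)|
          ≤ ∑ _i : Fin d, R * (16 * (C * D₀)) := by
            refine Finset.sum_le_sum fun i _ => ?_
            rw [abs_mul]
            refine mul_le_mul ?_ (hc₂ _ (htp t ht) i) (abs_nonneg _) hR.le
            have h3 : ‖p i‖ ≤ ‖p‖ := norm_le_pi_norm p i
            rw [Real.norm_eq_abs] at h3
            exact h3.trans hp
        _ = d * (R * (16 * (C * D₀))) := by
            rw [Finset.sum_const, Finset.card_univ, Fintype.card_fin, nsmul_eq_mul]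
    calc 2 * a * |∑ i, p i * (mN a k (t • p) i - mN a k 0 i - c₂ * (t • p) i)|
        ≤ 2 * a * (d * (R * (16 * (C * D₀)))) := mul_le_mul_of_nonneg_left h2 (by positivity)
      _ = (32 * a * d * R) * C * D₀ := by ring
      _ ≤ (32 * a * d * R) * (C + 1) * D₀ := by
          refine mul_le_mul_of_nonneg_right ?_ hD0
          exact mul_le_mul_of_nonneg_left (by linarith) (by positivity)
      _ = ε := by
          rw [hD₀]
          field_simp
  have hmv := Convex.norm_image_sub_le_of_norm_hasDerivWithin_le hder hbd (convex_Icc (0 : ℝ) 1)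
    (Set.left_mem_Icc.2 zero_le_one) (Set.right_mem_Icc.2 zero_le_one)
  have hmv' := hmv.trans_eq (show ε * ‖(1 : ℝ) - 0‖ = ε by simp)
  rw [Real.norm_eq_abs] at hmv'
  refine le_trans (le_of_eq ?_) hmv'
  congr 1
  have e3 : dot ((2 * a) • mN a k 0) p = 2 * a * dot p (mN a k 0) := by
    rw [LogN_dot]
    congr 1
    unfold dot
    exact Finset.sum_congr rfl fun i _ => mul_comm _ _
  unfold LT.qd
  rw [e3, one_smul, zero_smul]
  ring

end Pool.Agent.H37.SB
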