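import Pool.Agent.H37.SB.LogN
import Pool.Agent.H37.SB.GaC
import Pool.Agent.H37.SA.ModA
import Pool.Agent.H37.SA.WeakF

/-!
# Module Quad: `k` is close to the exponential of a quadratic function; the same for `G`

* `quad_k`. `ε' = ε/8`... `z₀, D₁` from `modA` with `ε₁ = ε/8`; `a` from `ga_L2` (`z₀`, `ε₁`): `∫ (ga - k)² ≤ 2 ε₁`. `log_quad` with `ε₂ ≤ 1/2` small: `D₂`, `α, κ, β`. For `‖p‖ ≤ R`: `ga = exp(-a|p|²) NN(p)/c_a = exp(qd α' β κ' p + θ)`, `|θ| ≤ ε₂`, `α' = α - log c_a`, `κ' = κ - a`. So `exp(qd') ≤ 2K`... (`exp(qd') = ga exp(-θ) ≤ K e^(1/2) ≤ 2K`), `|ga - exp(qd')| ≤ ga |1 - exp(-θ)| ≤ 2 K ε₂`; `∫_{‖v‖≤R} (k - exp qd')² ≤ 2 ∫ (ga-k)² + 2 (2Kε₂)² (2R)^d ≤ ε`. `D₀ = min D₁ D₂` (`Fw` is monotone in `D`: `B ≥ 0` because `|Ψ| ≤ B`).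
* `quad_G`: `weakF`, `kt_KC`: `K, c`; `η` with `c_d √η ≤ D₀`. `G = (kt G)² exp(2|v|²)`, `M = exp(qd (2α) (2β) (2κ+2)) = (exp qd)² exp(2|v|²)`; on `‖v‖ ≤ R`: `|G - M| = exp(2|v|²) |kt - e| |kt + e| ≤ exp(2dR²) 3K |kt - e|`, `∫_{ball} |kt - e| ≤ ((2R)^d ∫ (kt-e)²)^(1/2)`. The bound `M ≤ 4K² exp(2|v|²)`: `qd α β κ v ≤ C₀ + 2 nsq v` with `C₀ = log (4K²+1)`, independent of `R, ε`.
-/

set_option autoImplicit false

open MeasureTheory Set Filter Topology Pool.Agent.H25.Kin Pool.Agent.H37.LT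
open Pool.Agent.H15.AV (gau UNice)

namespace Pool.Agent.H37.SB

variable {d : ℕ}

private lemma quad_Fw {D D' : ℝ} (h : D ≤ D') {k : Vec d → ℝ} (hF : Fw D k) : Fw D' k := by
  intro B Ψ hΨ hB
  have hB0 : 0 ≤ B := (abs_nonneg _).trans (hB (0, 0))
  exact (hF B Ψ hΨ hB).trans (mul_le_mul_of_nonneg_right h hB0)

private lemma quad_cont (α κ : ℝ) (β : Vec d) : Continuous fun v : Vec d => qd α β κ v := by
  unfold LT.qd dot nsq
  fun_prop

private lemma quad_int {a : ℝ} (ha : 0 < a) :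
    Integrable (fun v : Vec d => Real.exp (-(a * nsq v))) := by
  have h : (fun v : Vec d => Real.exp (-(a * nsq v))) =
      fun v : Vec d => ∏ i, Real.exp (-a * (v i) ^ 2) := by
    funext v
    unfold nsq
    rw [← Real.exp_sum, Finset.mul_sum, ← Finset.sum_neg_distrib]
    congr 1
    exact Finset.sum_congr rfl fun i _ => by ring
  rw [h]
  exact MeasureTheory.Integrable.fintype_prod (f := fun (_ : Fin d) (x : ℝ) => Real.exp (-a * x ^ 2))
    (fun i => integrable_exp_neg_mul_sq ha)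

private lemma quad_pos {a : ℝ} (ha : 0 < a) : 0 < ∫ z : Vec d, Real.exp (-(a * nsq z)) := by
  refine (integral_pos_iff_support_of_nonneg (fun z => (Real.exp_pos _).le) (quad_int ha)).2 ?_
  have h : Function.support (fun z : Vec d => Real.exp (-(a * nsq z))) = univ := by
    ext z
    simp [Real.exp_ne_zero]
  rw [h]
  exact Measure.measure_univ_pos.2 (NeZero.ne _)

private lemma quad_exp_half : Real.exp (1 / 2) ≤ 2 := by
  have h1 := Real.exp_one_lt_d9
  have h2 : Real.exp (1 / 2) ^ 2 = Real.exp 1 := by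
    rw [← Real.exp_nat_mul]
    norm_num
  nlinarith [Real.exp_pos (1 / 2 : ℝ)]

private lemma quad_pt {K c a ε₂ : ℝ} (ha : 0 < a) (h12 : ε₂ ≤ 1 / 2)
    {k : Vec d → ℝ} (hk : KC K c k) {α κ : ℝ} {β p : Vec d} (hN : 0 < NN a k p)
    (h : |Real.log (NN a k p) - qd α β κ p| ≤ ε₂) :
    Real.exp (qd (α - Real.log (∫ z : Vec d, Real.exp (-(a * nsq z)))) β (κ - a) p) ≤ 2 * K ∧
      |ga a k p - Real.exp (qd (α - Real.log (∫ z : Vec d, Real.exp (-(a * nsq z)))) β (κ - a) p)| ≤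
        2 * K * ε₂ := by
  obtain ⟨ca, hca⟩ : ∃ ca : ℝ, ca = ∫ z : Vec d, Real.exp (-(a * nsq z)) := ⟨_, rfl⟩
  have hc : 0 < ca := by
    rw [hca]
    exact quad_pos ha
  obtain ⟨θ, hθ⟩ : ∃ θ : ℝ, θ = Real.log (NN a k p) - qd α β κ p := ⟨_, rfl⟩
  obtain ⟨q, hq⟩ : ∃ q : ℝ, q = qd (α - Real.log ca) β (κ - a) p := ⟨_, rfl⟩
  have hg : ga a k p = Real.exp (q + θ) := by
    rw [ga_eq ha, ← hca, hq, hθ]
    have e1 : qd (α - Real.log ca) β (κ - a) p + (Real.log (NN a k p) - qd α β κ p) =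
        -(a * nsq p) + Real.log (NN a k p) - Real.log ca := by
      unfold LT.qd
      ring
    rw [e1, Real.exp_sub, Real.exp_add, Real.exp_log hN, Real.exp_log hc]
  have hgK := ga_le ha hk p
  have hg0 : 0 < ga a k p := by
    rw [hg]
    exact Real.exp_pos _
  rw [← hθ] at h
  rw [← hca, ← hq]
  have he : Real.exp q = ga a k p * Real.exp (-θ) := by
    rw [hg, ← Real.exp_add]
    congr 1
    ring
  have h1 : Real.exp (-θ) ≤ 2 := by
    refine (Real.exp_le_exp.2 ?_).trans quad_exp_half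
    have := neg_abs_le θ
    linarith
  have hK : 0 ≤ K := hg0.le.trans hgK
  constructor
  · rw [he]
    calc ga a k p * Real.exp (-θ) ≤ K * 2 := mul_le_mul hgK h1 (Real.exp_pos _).le hK
      _ = 2 * K := by ring
  · have h2 : |Real.exp (-θ) - 1| ≤ 2 * |-θ| := by
      refine Real.abs_exp_sub_one_le ?_
      rw [abs_neg]
      linarith
    rw [he]
    have e2 : ga a k p - ga a k p * Real.exp (-θ) = -(ga a k p * (Real.exp (-θ) - 1)) := by ring
    rw [e2, abs_neg, abs_mul, abs_of_pos hg0]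
    rw [abs_neg] at h2
    calc ga a k p * |Real.exp (-θ) - 1| ≤ K * (2 * ε₂) :=
          mul_le_mul hgK (h2.trans (by linarith)) (abs_nonneg _) hK
      _ = 2 * K * ε₂ := by ring

theorem quad_k (hd : 2 ≤ d) {K c R ε : ℝ} (hK : 0 ≤ K) (hc : 0 < c) (hR : 0 < R) (hε : 0 < ε) :
    ∃ D₀ > 0, ∀ k : Vec d → ℝ, KC K c k → Fw D₀ k → ∃ (α κ : ℝ) (β : Vec d),
      (∀ v : Vec d, ‖v‖ ≤ R → Real.exp (qd α β κ v) ≤ 2 * K) ∧
      ∫ v in Metric.closedBall (0 : Vec d) R, (k v - Real.exp (qd α β κ v)) ^ 2 ≤ ε := by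
  obtain ⟨z₀, D₁, hz₀, hD₁, hmod⟩ := SA.modA hd hK hc (ε := ε / 8) (by positivity)
  obtain ⟨a, ha, hga⟩ := ga_L2 d (K := K) (c := c) hz₀ (ε := ε / 8) (by positivity)
  obtain ⟨Vo, hVo⟩ : ∃ Vo : ℝ, Vo = volume.real (Metric.closedBall (0 : Vec d) R) := ⟨_, rfl⟩
  have hVo0 : 0 ≤ Vo := by
    rw [hVo]
    exact measureReal_nonneg
  obtain ⟨ε₂, hε₂⟩ : ∃ ε₂ : ℝ, ε₂ = min (1 / 2) (ε / (16 * (K ^ 2 + 1) * (Vo + 1))) := ⟨_, rfl⟩
  have hε₂0 : 0 < ε₂ := by
    rw [hε₂]
    exact lt_min (by norm_num) (by positivity)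
  have h12 : ε₂ ≤ 1 / 2 := by
    rw [hε₂]
    exact min_le_left _ _
  have h13 : ε₂ * (16 * (K ^ 2 + 1) * (Vo + 1)) ≤ ε := by
    rw [← le_div_iff₀ (by positivity), hε₂]
    exact min_le_right _ _
  have h14 : 2 * (2 * K * ε₂) ^ 2 * Vo ≤ ε / 2 := by
    have h15 : ε₂ ^ 2 ≤ ε₂ := by nlinarith
    have h16 : K ^ 2 * Vo * ε₂ ^ 2 ≤ (K ^ 2 + 1) * (Vo + 1) * ε₂ := by
      refine mul_le_mul ?_ h15 (sq_nonneg _) (by positivity)
      exact mul_le_mul (by linarith) (by linarith) hVo0 (by positivity)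
    nlinarith
  obtain ⟨D₂, hD₂, hlog⟩ := log_quad hd (K := K) (c := c) hc ha hR hε₂0
  obtain ⟨c₁, hc₁, hlow⟩ := NN_low d (K := K) hc ha hR.le
  refine ⟨min D₁ D₂, lt_min hD₁ hD₂, fun k hk hF => ?_⟩
  have hm := hmod k hk (quad_Fw (min_le_left _ _) hF)
  obtain ⟨hi, hL2⟩ := hga k hk hm
  obtain ⟨α, κ, β, h⟩ := hlog k hk (quad_Fw (min_le_right _ _) hF)
  refine ⟨α - Real.log (∫ z : Vec d, Real.exp (-(a * nsq z))), κ - a, β, ?_⟩
  have hpt := fun (p : Vec d) (hp : ‖p‖ ≤ R) =>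
    quad_pt ha h12 hk (hc₁.trans_le (hlow k hk p hp)) (h p hp)
  refine ⟨fun p hp => (hpt p hp).1, ?_⟩
  generalize α - Real.log (∫ z : Vec d, Real.exp (-(a * nsq z))) = α' at hpt ⊢
  generalize κ - a = κ' at hpt ⊢
  have hint : IntegrableOn (fun p => 2 * (ga a k p - k p) ^ 2 + 2 * (2 * K * ε₂) ^ 2)
      (Metric.closedBall (0 : Vec d) R) := by
    refine (hi.integrableOn.const_mul 2).add ?_
    exact integrableOn_const (measure_closedBall_lt_top).ne
  have hle : ∫ v in Metric.closedBall (0 : Vec d) R, (k v - Real.exp (qd α' β κ' v)) ^ 2 ≤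
      ∫ v in Metric.closedBall (0 : Vec d) R, (2 * (ga a k v - k v) ^ 2 + 2 * (2 * K * ε₂) ^ 2) := by
    refine integral_mono_of_nonneg (Eventually.of_forall fun v => sq_nonneg _) hint ?_
    filter_upwards [ae_restrict_mem Metric.isClosed_closedBall.measurableSet] with v hv
    have hv' : ‖v‖ ≤ R := mem_closedBall_zero_iff.1 hv
    have h1 := (hpt v hv').2
    have h2 : (ga a k v - Real.exp (qd α' β κ' v)) ^ 2 ≤ (2 * K * ε₂) ^ 2 := by
      rw [← sq_abs]
      exact pow_le_pow_left₀ (abs_nonneg _) h1 2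
    nlinarith [sq_nonneg (ga a k v - k v + (ga a k v - Real.exp (qd α' β κ' v)))]
  refine hle.trans ?_
  rw [integral_add (hi.integrableOn.const_mul 2) (integrableOn_const (measure_closedBall_lt_top).ne),
    integral_const_mul, setIntegral_const, ← hVo, smul_eq_mul]
  have h5 : ∫ v in Metric.closedBall (0 : Vec d) R, (ga a k v - k v) ^ 2 ≤ 2 * (ε / 8) :=
    (setIntegral_le_integral hi (Eventually.of_forall fun v => sq_nonneg _)).trans hL2
  nlinarith

theorem quad_G (hd : 2 ≤ d) (Cl : ℕ → ℝ) {m : ℝ} (hm : 0 < m) : ∃ C₀ : ℝ, ∀ R ε : ℝ, 0 < R → 0 < ε →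
    ∃ η > 0, ∀ G : Vec d → ℝ, SC Cl m G → dv G ≤ η → ∃ (α κ : ℝ) (β : Vec d),
      (∀ v : Vec d, ‖v‖ ≤ R → qd α β κ v ≤ C₀ + 2 * nsq v) ∧
      ∫ v in Metric.closedBall (0 : Vec d) R, |G v - Real.exp (qd α β κ v)| ≤ ε := by
  obtain ⟨K, c, hK, hc, hkt⟩ := SA.kt_KC d Cl hm
  obtain ⟨cd, hcd, hW⟩ := SA.weakF (d := d) (by omega)
  refine ⟨Real.log (4 * K ^ 2 + 1), fun R ε hR hε => ?_⟩
  obtain ⟨Vo, hVo⟩ : ∃ Vo : ℝ, Vo = volume.real (Metric.closedBall (0 : Vec d) R) := ⟨_, rfl⟩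
  have hVo0 : 0 ≤ Vo := by
    rw [hVo]
    exact measureReal_nonneg
  obtain ⟨A, hA⟩ : ∃ A : ℝ, A = Real.exp (2 * (d * R ^ 2)) * (3 * K) := ⟨_, rfl⟩
  have hA0 : 0 ≤ A := by
    rw [hA]
    positivity
  obtain ⟨δ, hδ⟩ : ∃ δ : ℝ, δ = ε / ((A + 1) * (Vo + 1)) := ⟨_, rfl⟩
  have hδ0 : 0 < δ := by
    rw [hδ]
    positivity
  have hδA : δ * ((A + 1) * (Vo + 1)) = ε := by
    rw [hδ]
    field_simp
  obtain ⟨D₀, hD₀, hq⟩ := quad_k hd hK hc hR (ε := δ ^ 2) (by positivity)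
  refine ⟨(D₀ / (cd + 1)) ^ 2, by positivity, fun G hG hdv => ?_⟩
  have hk := hkt G hG
  have hGle : ∀ v, G v ≤ Cl 0 := by
    intro v
    have := hG.le 0 v
    rwa [pow_zero, one_mul] at this
  have hs : cd * Real.sqrt (dv G) ≤ D₀ := by
    have h1 : Real.sqrt (dv G) ≤ D₀ / (cd + 1) := by
      rw [← Real.sqrt_sq (by positivity : 0 ≤ D₀ / (cd + 1))]
      exact Real.sqrt_le_sqrt hdv
    have h2 : cd * Real.sqrt (dv G) ≤ cd * (D₀ / (cd + 1)) := mul_le_mul_of_nonneg_left h1 hcd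
    have h3 : cd * (D₀ / (cd + 1)) ≤ D₀ := by
      rw [mul_div_assoc', div_le_iff₀ (by positivity)]
      nlinarith
    exact h2.trans h3
  obtain ⟨α, κ, β, h2K, hint⟩ := hq (kt G) hk
    (quad_Fw hs (hW (Cl 0) G hG.cont hG.nn hGle))
  refine ⟨2 * α, 2 * κ + 2, fun i => 2 * β i, ?_, ?_⟩
  · intro v hv
    have h1 := h2K v hv
    have e1 : qd (2 * α) (fun i => 2 * β i) (2 * κ + 2) v = 2 * qd α β κ v + 2 * nsq v := by
      unfold LT.qd dot
      simp only [mul_assoc]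
      rw [← Finset.mul_sum]
      ring
    rw [e1]
    have h3 : 2 * qd α β κ v ≤ Real.log (4 * K ^ 2 + 1) := by
      rw [Real.le_log_iff_exp_le (by positivity)]
      have e2 : Real.exp (2 * qd α β κ v) = Real.exp (qd α β κ v) ^ 2 := by
        rw [← Real.exp_nat_mul]
        norm_num
      rw [e2]
      have h4 := pow_le_pow_left₀ (Real.exp_pos (qd α β κ v)).le h1 2
      nlinarith
    linarith
  · have hc1 : Continuous fun v => (kt G v - Real.exp (qd α β κ v)) ^ 2 :=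
      (hk.cont.sub (Real.continuous_exp.comp (quad_cont α κ β))).pow 2
    have hi1 : IntegrableOn (fun v => (kt G v - Real.exp (qd α β κ v)) ^ 2)
        (Metric.closedBall (0 : Vec d) R) :=
      hc1.continuousOn.integrableOn_compact (isCompact_closedBall 0 R)
    have hi2 : IntegrableOn (fun _ : Vec d => A * δ / 2) (Metric.closedBall (0 : Vec d) R) :=
      integrableOn_const (measure_closedBall_lt_top).ne
    have hle : ∫ v in Metric.closedBall (0 : Vec d) R,
        |G v - Real.exp (qd (2 * α) (fun i => 2 * β i) (2 * κ + 2) v)| ≤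
        ∫ v in Metric.closedBall (0 : Vec d) R, (A * δ / 2 +
          A / (2 * δ) * (kt G v - Real.exp (qd α β κ v)) ^ 2) := by
      refine integral_mono_of_nonneg (Eventually.of_forall fun v => abs_nonneg _)
        (hi2.add (hi1.const_mul (A / (2 * δ)))) ?_
      filter_upwards [ae_restrict_mem Metric.isClosed_closedBall.measurableSet] with v hv
      have hv' : ‖v‖ ≤ R := mem_closedBall_zero_iff.1 hv
      obtain ⟨e, he⟩ : ∃ e : ℝ, e = Real.exp (qd α β κ v) := ⟨_, rfl⟩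
      have he0 : 0 < e := by
        rw [he]
        exact Real.exp_pos _
      have heK : e ≤ 2 * K := by
        rw [he]
        exact h2K v hv'
      have hn0 : 0 ≤ nsq v := Finset.sum_nonneg fun i _ => sq_nonneg _
      have hg1 : gau v ≤ 1 := by
        unfold gau
        exact Real.exp_le_one_iff.2 (by linarith)
      have hktK : kt G v ≤ K := (hk.le v).trans (mul_le_of_le_one_right hK hg1)
      have hkt0 := hk.nn v
      have hn : nsq v ≤ d * R ^ 2 := by
        unfold nsq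
        calc ∑ i, v i ^ 2 ≤ ∑ _i : Fin d, R ^ 2 := by
              refine Finset.sum_le_sum fun i _ => ?_
              rw [← sq_abs]
              refine pow_le_pow_left₀ (abs_nonneg _) ?_ 2
              exact (norm_le_pi_norm v i).trans hv'
          _ = d * R ^ 2 := by
              rw [Finset.sum_const, Finset.card_univ, Fintype.card_fin, nsmul_eq_mul]
      have e1 : Real.exp (qd (2 * α) (fun i => 2 * β i) (2 * κ + 2) v) =
          Real.exp (2 * nsq v) * e ^ 2 := by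
        have e2 : qd (2 * α) (fun i => 2 * β i) (2 * κ + 2) v =
            2 * nsq v + 2 * qd α β κ v := by
          unfold LT.qd dot
          simp only [mul_assoc]
          rw [← Finset.mul_sum]
          ring
        have e3 : Real.exp (2 * qd α β κ v) = e ^ 2 := by
          rw [he, ← Real.exp_nat_mul]
          norm_num
        rw [e2, Real.exp_add, e3]
      have e4 : G v = Real.exp (2 * nsq v) * kt G v ^ 2 := by
        unfold kt gau
        rw [mul_pow, Real.sq_sqrt (hG.nn v), mul_left_comm, ← Real.exp_nat_mul, ← Real.exp_add]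
        have e5 : 2 * nsq v + ((2 : ℕ) : ℝ) * -nsq v = 0 := by
          push_cast
          ring
        rw [e5, Real.exp_zero, mul_one]
      have e6 : G v - Real.exp (qd (2 * α) (fun i => 2 * β i) (2 * κ + 2) v) =
          Real.exp (2 * nsq v) * ((kt G v - e) * (kt G v + e)) := by
        rw [e1]
        nth_rewrite 1 [e4]
        ring
      rw [e6, abs_mul, abs_of_pos (Real.exp_pos _), abs_mul,
        abs_of_nonneg (by linarith : 0 ≤ kt G v + e), ← he]
      have h7 : Real.exp (2 * nsq v) ≤ Real.exp (2 * (d * R ^ 2)) :=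
        Real.exp_le_exp.2 (by linarith)
      have h8 : Real.exp (2 * nsq v) * (|kt G v - e| * (kt G v + e)) ≤ A * |kt G v - e| := by
        rw [hA]
        calc Real.exp (2 * nsq v) * (|kt G v - e| * (kt G v + e))
            ≤ Real.exp (2 * (d * R ^ 2)) * (|kt G v - e| * (3 * K)) := by
              refine mul_le_mul h7 ?_ (mul_nonneg (abs_nonneg _) (by linarith))
                (Real.exp_pos _).le
              exact mul_le_mul_of_nonneg_left (by linarith) (abs_nonneg _)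
          _ = _ := by ring
      refine h8.trans ?_
      have h9 : |kt G v - e| ≤ δ / 2 + 1 / (2 * δ) * (kt G v - e) ^ 2 := by
        have h10 : 2 * δ * |kt G v - e| ≤ δ ^ 2 + (kt G v - e) ^ 2 := by
          have h11 := sq_nonneg (δ - |kt G v - e|)
          have h12 := sq_abs (kt G v - e)
          nlinarith
        have h13 : δ / 2 + 1 / (2 * δ) * (kt G v - e) ^ 2 =
            (δ ^ 2 + (kt G v - e) ^ 2) / (2 * δ) := by
          field_simp
        rw [h13, le_div_iff₀ (by positivity)]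
        linarith
      calc A * |kt G v - e| ≤ A * (δ / 2 + 1 / (2 * δ) * (kt G v - e) ^ 2) :=
            mul_le_mul_of_nonneg_left h9 hA0
        _ = A * δ / 2 + A / (2 * δ) * (kt G v - e) ^ 2 := by ring
    refine hle.trans ?_
    rw [integral_add hi2 (hi1.const_mul _), integral_const_mul, setIntegral_const, ← hVo,
      smul_eq_mul]
    have h20 : A / (2 * δ) * ∫ v in Metric.closedBall (0 : Vec d) R,
        (kt G v - Real.exp (qd α β κ v)) ^ 2 ≤ A / (2 * δ) * δ ^ 2 :=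
      mul_le_mul_of_nonneg_left hint (by positivity)
    have h21 : A / (2 * δ) * δ ^ 2 = A * δ / 2 := by
      field_simp
    rw [h21] at h20
    nlinarith [mul_nonneg hA0 hδ0.le, mul_nonneg hVo0 hδ0.le, mul_nonneg (mul_nonneg hA0 hδ0.le) hVo0]

end Pool.Agent.H37.SB
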