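import Pool.Agent.H37.SB.Bas

/-!
# Module Refl: the spherical mean of the test function vanishes

* `refl0`: `τ·ρ = 0`. If `τ = 0` trivial. `n = τ/|τ|`, `σ ↦ -(refl n σ) = σ - 2(n·σ) n` preserves `surf` (`refl_preserving`, `neg_preserving`, composition), changes the sign of `dot τ σ` and keeps `dot ρ σ`. So the integral equals its negative (if not integrable it is `0` anyway, but use `MeasurePreserving.integral_comp` or `integral_map` with continuity).
* `mean_B`: `Ψ(v,w) = dot τ (v-w) eN a p v eN a q w` is continuous and bounded by `2 d len τ C²` (`eN_bd`). For `nsq σ = 1`: `v' - w' = |V|σ`, `|v'|²+|w'|² = |v|²+|w|²`, `p·v' + q·w' = (p+q)·(v+w)/2 + (|V|/2)(p-q)·σ`, so `Ψ(v',w') = E(v,w) |V| dot τ σ exp(a|V| dot (p-q) σ)`, with integral over `σ` equal to `0` by `refl0` (`ρ = (a|V|)(p-q)`). `Fw` gives `|∫_mu3 k(v)k(w) Ψ(v,w)| ≤ D · 2 d C² len τ`, and `∫_mu3 k k Ψ = s₀ [(∫ k eN_p dot τ v)(NN q) - (NN p)(∫ k eN_q dot τ w)] = s₀ NN(p) NN(q) dot τ (mN p - mN q)`,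 `s₀ = (surf d).real univ > 0`. Divide by `s₀ NN(p) NN(q) ≥ s₀ c₁²`.
-/

set_option autoImplicit false

open MeasureTheory Set Filter Topology Pool.Agent.H25.Kin Pool.Agent.H37.LT
open Pool.Agent.H15.AV (gau UNice)

namespace Pool.Agent.H37.SB

variable {d : ℕ}

theorem refl0 (hd : 1 ≤ d) {τ ρ : Vec d} (h : dot τ ρ = 0) :
    ∫ σ, dot τ σ * Real.exp (dot ρ σ) ∂(surf d) = 0 := by
  by_cases hτ : nsq τ = 0
  · have h0 : ∀ σ, dot τ σ = 0 := by
      intro σ
      have h1 := dot_sq_le τ σ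
      rw [hτ, zero_mul] at h1
      exact (pow_eq_zero_iff two_ne_zero).1 (le_antisymm h1 (sq_nonneg _))
    simp only [h0, zero_mul, integral_zero]
  · have hl : 0 < nsq τ := lt_of_le_of_ne (sq_nonneg' τ) (Ne.symm hτ)
    have hlen : 0 < len τ := Real.sqrt_pos.2 hl
    have hls : len τ ^ 2 = nsq τ := len_sq τ
    have hn1 : nsq ((len τ)⁻¹ • τ) = 1 := by
      rw [nsq_smul, ← hls]; field_simp
    have hmp : MeasurePreserving
        (fun σ => -(Pool.Agent.H25.Kin.refl ((len τ)⁻¹ • τ) σ)) (surf d) (surf d) :=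
      (neg_preserving hd).comp (refl_preserving hd hn1)
    have e1 : ∀ σ, dot τ (-(Pool.Agent.H25.Kin.refl ((len τ)⁻¹ • τ) σ)) = -dot τ σ := by
      intro σ
      rw [dot_neg, refl_apply, dot_sub, dot_smul, dot_smul, dot_self, smul_dot, ← hls]
      field_simp
      ring
    have e2 : ∀ σ, dot ρ (-(Pool.Agent.H25.Kin.refl ((len τ)⁻¹ • τ) σ)) = dot ρ σ := by
      intro σ
      rw [dot_neg, refl_apply, dot_sub, dot_smul, dot_smul, dot_comm ρ τ, h]
      ring
    have hc : Continuous fun σ => dot τ σ * Real.exp (dot ρ σ) :=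
      (dot_cont τ).mul (Real.continuous_exp.comp (dot_cont ρ))
    have h3 : ∫ σ, (dot τ (-(Pool.Agent.H25.Kin.refl ((len τ)⁻¹ • τ) σ)) *
        Real.exp (dot ρ (-(Pool.Agent.H25.Kin.refl ((len τ)⁻¹ • τ) σ)))) ∂(surf d) =
        ∫ σ, dot τ σ * Real.exp (dot ρ σ) ∂(surf d) := by
      have h5 := integral_map (μ := surf d) hmp.measurable.aemeasurable
        (f := fun σ => dot τ σ * Real.exp (dot ρ σ)) hc.aestronglyMeasurable
      rw [hmp.map_eq] at h5
      exact h5.symm
    simp only [e1, e2] at h3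
    have h4 : ∫ σ, -dot τ σ * Real.exp (dot ρ σ) ∂(surf d) =
        -∫ σ, dot τ σ * Real.exp (dot ρ σ) ∂(surf d) := by
      rw [← integral_neg]
      refine integral_congr_ae (Eventually.of_forall fun σ => ?_)
      simp only
      ring
    linarith

/-- the total mass of the sphere is positive -/
private lemma Refl_s0 (hd : 1 ≤ d) : 0 < (surf d).real univ := by
  rw [Measure.real, ENNReal.toReal_pos_iff]
  refine ⟨?_, measure_lt_top _ _⟩
  have h := surf_formula hd (F := fun _ => (1 : ENNReal)) measurable_const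
  rw [lintegral_const, one_mul, setLIntegral_const, one_mul] at h
  rw [h]
  have hd0 : (d : ENNReal) ≠ 0 := by
    simp only [ne_eq, Nat.cast_eq_zero]; omega
  refine ENNReal.mul_pos hd0 ?_
  have ho : IsOpen {z : Vec d | nsq z < 1} := isOpen_lt continuous_sq continuous_const
  refine (ho.measure_pos volume ⟨0, ?_⟩).ne'
  show nsq (0 : Vec d) < 1
  unfold nsq
  simp

private lemma Refl_abs_le_len (τ : Vec d) (i : Fin d) : |τ i| ≤ len τ := by
  unfold len nsq
  rw [← Real.sqrt_sq_eq_abs]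
  exact Real.sqrt_le_sqrt (Finset.single_le_sum (f := fun j => τ j ^ 2)
    (fun j _ => sq_nonneg (τ j)) (Finset.mem_univ i))

/-- the test function -/
private noncomputable def Refl_Psi (a : ℝ) (p q τ : Vec d) (x : Vec d × Vec d) : ℝ :=
  dot τ (x.1 - x.2) * (eN a p x.1 * eN a q x.2)

private lemma Refl_Psi_cont (a : ℝ) (p q τ : Vec d) : Continuous (Refl_Psi a p q τ) := by
  unfold Refl_Psi
  have h1 : Continuous fun x : Vec d × Vec d => dot τ (x.1 - x.2) :=
    (dot_cont τ).comp (continuous_fst.sub continuous_snd)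
  have h2 : Continuous fun x : Vec d × Vec d => eN a p x.1 :=
    (eN_cont a).comp (continuous_const.prodMk continuous_fst)
  have h3 : Continuous fun x : Vec d × Vec d => eN a q x.2 :=
    (eN_cont a).comp (continuous_const.prodMk continuous_snd)
  exact h1.mul (h2.mul h3)

private lemma Refl_Psi_bd {a R C : ℝ} (hC0 : 0 ≤ C) (hC : ∀ p v : Vec d, ‖p‖ ≤ R →
    eN a p v ≤ C ∧ ∀ i, |v i| * eN a p v ≤ C) {p q τ : Vec d} (hp : ‖p‖ ≤ R) (hq : ‖q‖ ≤ R)
    (x : Vec d × Vec d) : |Refl_Psi a p q τ x| ≤ 2 * d * C ^ 2 * len τ := by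
  unfold Refl_Psi
  have e1 := eN_pos a p x.1
  have e2 := eN_pos a q x.2
  rw [abs_mul, abs_of_pos (mul_pos e1 e2)]
  have h1 : |dot τ (x.1 - x.2)| ≤ ∑ i : Fin d, |τ i| * (|x.1 i| + |x.2 i|) := by
    unfold dot
    refine (Finset.abs_sum_le_sum_abs _ _).trans (Finset.sum_le_sum fun i _ => ?_)
    rw [abs_mul, Pi.sub_apply]
    exact mul_le_mul_of_nonneg_left (abs_sub _ _) (abs_nonneg _)
  calc |dot τ (x.1 - x.2)| * (eN a p x.1 * eN a q x.2)
      ≤ (∑ i : Fin d, |τ i| * (|x.1 i| + |x.2 i|)) * (eN a p x.1 * eN a q x.2) :=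
        mul_le_mul_of_nonneg_right h1 (mul_pos e1 e2).le
    _ = ∑ i : Fin d, |τ i| * ((|x.1 i| * eN a p x.1) * eN a q x.2 +
          eN a p x.1 * (|x.2 i| * eN a q x.2)) := by
        rw [Finset.sum_mul]
        exact Finset.sum_congr rfl fun i _ => by ring
    _ ≤ ∑ i : Fin d, len τ * (2 * C ^ 2) := by
        refine Finset.sum_le_sum fun i _ => ?_
        have a1 := (hC p x.1 hp).2 i
        have a2 := (hC q x.2 hq).1
        have a3 := (hC p x.1 hp).1
        have a4 := (hC q x.2 hq).2 i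
        have b1 : |x.1 i| * eN a p x.1 * eN a q x.2 ≤ C * C :=
          mul_le_mul a1 a2 e2.le hC0
        have b2 : eN a p x.1 * (|x.2 i| * eN a q x.2) ≤ C * C :=
          mul_le_mul a3 a4 (mul_nonneg (abs_nonneg _) e2.le) hC0
        have b3 : 0 ≤ |x.1 i| * eN a p x.1 * eN a q x.2 +
            eN a p x.1 * (|x.2 i| * eN a q x.2) := by positivity
        exact mul_le_mul (Refl_abs_le_len τ i) (by nlinarith) b3 (len_nonneg τ)
    _ = 2 * d * C ^ 2 * len τ := by
        rw [Finset.sum_const, Finset.card_univ, Fintype.card_fin, nsmul_eq_mul]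
        ring

private lemma Refl_post_nsq {v w σ : Vec d} (hσ : nsq σ = 1) :
    nsq (post v w σ) + nsq (post' v w σ) = nsq v + nsq w := by
  unfold post post'
  rw [nsq_add, nsq_sub, nsq_smul, nsq_smul, hσ, nsq_add]
  have h1 : (len (v - w) / 2) ^ 2 * 1 = nsq (v - w) / 4 := by
    rw [← len_sq]; ring
  rw [h1, nsq_sub]
  ring

/-- the test function after the collision -/
private lemma Refl_Psi_post (a : ℝ) (p q τ v w : Vec d) {σ : Vec d} (hσ : nsq σ = 1) :
    Refl_Psi a p q τ (post v w σ, post' v w σ) =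
      Real.exp (-(a * (nsq v + nsq w)) + a * dot (p + q) (v + w)) * len (v - w) *
        (dot τ σ * Real.exp (dot ((a * len (v - w)) • (p - q)) σ)) := by
  unfold Refl_Psi eN
  simp only
  have h1 : post v w σ - post' v w σ = len (v - w) • σ := by
    unfold post post'
    ext i
    simp
    ring
  rw [h1, dot_smul, ← Real.exp_add]
  have h2 : -(a * nsq (post v w σ)) + 2 * a * dot p (post v w σ) +
      (-(a * nsq (post' v w σ)) + 2 * a * dot q (post' v w σ)) =
      (-(a * (nsq v + nsq w)) + a * dot (p + q) (v + w)) +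
        dot ((a * len (v - w)) • (p - q)) σ := by
    rw [← Refl_post_nsq (v := v) (w := w) hσ]
    have h3 : dot p (post v w σ) = 1 / 2 * dot p (v + w) + len (v - w) / 2 * dot p σ := by
      unfold post; rw [dot_add, dot_smul, dot_smul]
    have h4 : dot q (post' v w σ) = 1 / 2 * dot q (v + w) - len (v - w) / 2 * dot q σ := by
      unfold post'; rw [dot_sub, dot_smul, dot_smul]
    have h5 : dot (p + q) (v + w) = dot p (v + w) + dot q (v + w) := by
      rw [dot_comm, dot_add, dot_comm _ p, dot_comm _ q]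
    have h6 : dot ((a * len (v - w)) • (p - q)) σ = a * len (v - w) * (dot p σ - dot q σ) := by
      rw [smul_dot, dot_comm (p - q), dot_sub, dot_comm σ p, dot_comm σ q]
    rw [h3, h4, h5, h6]
    ring
  rw [h2, Real.exp_add]
  ring

private lemma Refl_inner (hd : 1 ≤ d) (a : ℝ) {p q τ : Vec d} (h : dot τ (p - q) = 0) (c : ℝ)
    (v w : Vec d) :
    ∫ σ, c * Refl_Psi a p q τ (post v w σ, post' v w σ) ∂(surf d) = 0 := by
  have e : ∀ᵐ σ ∂(surf d), c * Refl_Psi a p q τ (post v w σ, post' v w σ) =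
      c * (Real.exp (-(a * (nsq v + nsq w)) + a * dot (p + q) (v + w)) * len (v - w)) *
        (dot τ σ * Real.exp (dot ((a * len (v - w)) • (p - q)) σ)) := by
    filter_upwards [surf_ae] with σ hσ
    rw [Refl_Psi_post a p q τ v w hσ]
    ring
  rw [integral_congr_ae e, integral_const_mul, refl0 hd (by rw [dot_smul, h, mul_zero]), mul_zero]

private lemma Refl_kk_int {K c : ℝ} {k : Vec d → ℝ} (hk : KC K c k) :
    Integrable (fun p : Vec d × Vec d × Vec d => k p.1 * (k p.2.1 * 1)) (mu3 d) := by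
  have h1 : Integrable k := by
    have h := k_int hk (F := fun _ => (1 : ℝ)) continuous_const (C := 1) (fun v => by
      rw [abs_one, one_mul]; linarith [norm_nonneg v])
    simpa using h
  have h2 : Integrable (fun _ : Vec d => (1 : ℝ)) (surf d) := integrable_const _
  exact h1.mul_prod (h1.mul_prod h2)

private lemma Refl_int {K c B : ℝ} {k : Vec d → ℝ} (hk : KC K c k)
    {G : Vec d × Vec d × Vec d → ℝ} (hG : Continuous G) (hB : ∀ x, |G x| ≤ B) :
    Integrable (fun p : Vec d × Vec d × Vec d => k p.1 * k p.2.1 * G p) (mu3 d) := by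
  have h := Refl_kk_int hk
  have hm : AEStronglyMeasurable
      (fun p : Vec d × Vec d × Vec d => k p.1 * k p.2.1 * G p) (mu3 d) := by
    have h1 : Continuous fun p : Vec d × Vec d × Vec d => k p.1 := hk.cont.comp continuous_fst
    have h2 : Continuous fun p : Vec d × Vec d × Vec d => k p.2.1 :=
      hk.cont.comp (continuous_fst.comp continuous_snd)
    exact ((h1.mul h2).mul hG).aestronglyMeasurable
  refine (h.const_mul B).mono' hm (Eventually.of_forall fun p => ?_)
  rw [Real.norm_eq_abs, abs_mul, abs_of_nonneg (mul_nonneg (hk.nn _) (hk.nn _))]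
  have h3 := mul_le_mul_of_nonneg_left (hB p) (mul_nonneg (hk.nn p.1) (hk.nn p.2.1))
  linarith

/-- the integral of the test function after the collision vanishes -/
private lemma Refl_after (hd : 1 ≤ d) {K c a B : ℝ} {k : Vec d → ℝ} (hk : KC K c k)
    {p q τ : Vec d} (h : dot τ (p - q) = 0) (hB : ∀ x, |Refl_Psi a p q τ x| ≤ B) :
    ∫ x, k x.1 * k x.2.1 * Refl_Psi a p q τ (post x.1 x.2.1 x.2.2, post' x.1 x.2.1 x.2.2)
      ∂(mu3 d) = 0 := by
  have hc : Continuous fun x : Vec d × Vec d × Vec d =>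
      Refl_Psi a p q τ (post x.1 x.2.1 x.2.2, post' x.1 x.2.1 x.2.2) :=
    (Refl_Psi_cont a p q τ).comp (continuous_post.prodMk continuous_post')
  have hi := Refl_int hk hc (fun x => hB _)
  rw [integral_prod _ hi]
  have h1 : ∀ᵐ v : Vec d, ∫ y : Vec d × Vec d, k v * k y.1 *
      Refl_Psi a p q τ (post v y.1 y.2, post' v y.1 y.2) ∂((volume : Measure (Vec d)).prod (surf d))
      = 0 := by
    filter_upwards [hi.prod_right_ae] with v hv
    rw [integral_prod _ hv]
    have h2 : ∀ w : Vec d, ∫ σ, k v * k w * Refl_Psi a p q τ (post v w σ, post' v w σ) ∂(surf d) = 0 :=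
      fun w => Refl_inner hd a h (k v * k w) v w
    simp only [h2, integral_zero]
  rw [integral_congr_ae h1, integral_zero]

private lemma Refl_dotN {K c a C R : ℝ} {k : Vec d → ℝ} (hk : KC K c k) (hC0 : 0 ≤ C)
    (hC : ∀ p v : Vec d, ‖p‖ ≤ R → eN a p v ≤ C ∧ ∀ i, |v i| * eN a p v ≤ C)
    {p : Vec d} (hp : ‖p‖ ≤ R) (hN : NN a k p ≠ 0) (τ : Vec d) :
    (Integrable fun v => k v * eN a p v) ∧ (Integrable fun v => k v * (dot τ v * eN a p v)) ∧
      ∫ v, k v * (dot τ v * eN a p v) = NN a k p * dot τ (mN a k p) := by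
  have he : Continuous fun v : Vec d => eN a p v :=
    (eN_cont a).comp (continuous_const.prodMk continuous_id)
  have h1 : Integrable fun v => k v * eN a p v := by
    refine k_int hk he (C := C) fun v => ?_
    rw [abs_of_pos (eN_pos a p v)]
    have := (hC p v hp).1
    nlinarith [norm_nonneg v]
  have h2 : ∀ i : Fin d, Integrable fun v => k v * (v i * eN a p v) := by
    intro i
    refine k_int hk ((continuous_apply i).mul he) (C := C) fun v => ?_
    rw [abs_mul, abs_of_pos (eN_pos a p v)]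
    have := (hC p v hp).2 i
    nlinarith [norm_nonneg v]
  have e3 : (fun v => k v * (dot τ v * eN a p v)) =
      fun v => ∑ i : Fin d, τ i * (k v * (v i * eN a p v)) := by
    funext v
    unfold dot
    rw [Finset.sum_mul, Finset.mul_sum]
    exact Finset.sum_congr rfl fun i _ => by ring
  refine ⟨h1, ?_, ?_⟩
  · rw [e3]
    exact integrable_finsetSum _ fun i _ => (h2 i).const_mul _
  · rw [e3, integral_finsetSum _ fun i _ => (h2 i).const_mul _]
    unfold dot
    rw [Finset.mul_sum]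
    refine Finset.sum_congr rfl fun i _ => ?_
    rw [integral_const_mul]
    unfold mN
    have e4 : ∫ v, v i * (k v * eN a p v) = ∫ v, k v * (v i * eN a p v) := by
      refine integral_congr_ae (Eventually.of_forall fun v => ?_)
      simp only
      ring
    simp only [e4]
    field_simp

/-- the integral of the test function before the collision -/
private lemma Refl_before {K c a C R : ℝ} {k : Vec d → ℝ} (hk : KC K c k) (hC0 : 0 ≤ C)
    (hC : ∀ p v : Vec d, ‖p‖ ≤ R → eN a p v ≤ C ∧ ∀ i, |v i| * eN a p v ≤ C)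
    {p q : Vec d} (hp : ‖p‖ ≤ R) (hq : ‖q‖ ≤ R) (hNp : NN a k p ≠ 0) (hNq : NN a k q ≠ 0)
    (τ : Vec d) :
    ∫ x, k x.1 * k x.2.1 * Refl_Psi a p q τ (x.1, x.2.1) ∂(mu3 d) =
      (surf d).real univ * (NN a k p * NN a k q * dot τ (mN a k p - mN a k q)) := by
  obtain ⟨i1, i2, i3⟩ := Refl_dotN hk hC0 hC hp hNp τ
  obtain ⟨j1, j2, j3⟩ := Refl_dotN hk hC0 hC hq hNq τ
  have e : (fun x : Vec d × Vec d × Vec d => k x.1 * k x.2.1 * Refl_Psi a p q τ (x.1, x.2.1)) =
      fun x => (k x.1 * (dot τ x.1 * eN a p x.1)) * ((k x.2.1 * eN a q x.2.1) * 1) -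
        (k x.1 * eN a p x.1) * ((k x.2.1 * (dot τ x.2.1 * eN a q x.2.1)) * 1) := by
    funext x
    unfold Refl_Psi
    simp only
    rw [dot_sub]
    ring
  have ho : Integrable (fun _ : Vec d => (1 : ℝ)) (surf d) := integrable_const _
  have I1 := i2.mul_prod (j1.mul_prod ho)
  have I2 := i1.mul_prod (j2.mul_prod ho)
  have hs : ∫ _ : Vec d, (1 : ℝ) ∂(surf d) = (surf d).real univ := by
    rw [integral_const, smul_eq_mul, mul_one]
  rw [e, integral_sub I1 I2]
  have A1 := integral_prod_mul (μ := (volume : Measure (Vec d)))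
    (ν := (volume : Measure (Vec d)).prod (surf d)) (fun v : Vec d => k v * (dot τ v * eN a p v))
    (fun y : Vec d × Vec d => (k y.1 * eN a q y.1) * 1)
  have A2 := integral_prod_mul (μ := (volume : Measure (Vec d)))
    (ν := (volume : Measure (Vec d)).prod (surf d)) (fun v : Vec d => k v * eN a p v)
    (fun y : Vec d × Vec d => (k y.1 * (dot τ y.1 * eN a q y.1)) * 1)
  have B1 := integral_prod_mul (μ := (volume : Measure (Vec d))) (ν := surf d)
    (fun v : Vec d => k v * eN a q v) (fun _ : Vec d => (1 : ℝ))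
  have B2 := integral_prod_mul (μ := (volume : Measure (Vec d))) (ν := surf d)
    (fun v : Vec d => k v * (dot τ v * eN a q v)) (fun _ : Vec d => (1 : ℝ))
  rw [A1, A2, B1, B2, hs, i3, j3, dot_sub]
  unfold NN
  ring

theorem mean_B (hd : 1 ≤ d) {K c a R : ℝ} (hc : 0 < c) (ha : 0 < a) (hR : 0 ≤ R) : ∃ C : ℝ, 0 ≤ C ∧
    ∀ (D : ℝ) (k : Vec d → ℝ), 0 ≤ D → KC K c k → Fw D k → ∀ p q τ : Vec d, ‖p‖ ≤ R → ‖q‖ ≤ R →
      dot τ (p - q) = 0 → |dot τ (mN a k p - mN a k q)| ≤ C * D * len τ := by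
  obtain ⟨C, hC0, hC⟩ := eN_bd ha hR d
  obtain ⟨c₁, hc₁, hN⟩ := NN_low d (K := K) hc ha hR
  have hs := Refl_s0 hd
  refine ⟨2 * d * C ^ 2 / ((surf d).real univ * c₁ ^ 2), by positivity, ?_⟩
  intro D k hD hk hF p q τ hp hq hτ
  have hNp := hN k hk p hp
  have hNq := hN k hk q hq
  have hNp0 : 0 < NN a k p := lt_of_lt_of_le hc₁ hNp
  have hNq0 : 0 < NN a k q := lt_of_lt_of_le hc₁ hNq
  have hB := Refl_Psi_bd hC0 hC (τ := τ) hp hq
  have h1 := hF (2 * d * C ^ 2 * len τ) (Refl_Psi a p q τ) (Refl_Psi_cont a p q τ) hB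
  have hc1 : Continuous fun x : Vec d × Vec d × Vec d => Refl_Psi a p q τ (x.1, x.2.1) :=
    (Refl_Psi_cont a p q τ).comp (continuous_fst.prodMk (continuous_fst.comp continuous_snd))
  have hc2 : Continuous fun x : Vec d × Vec d × Vec d =>
      Refl_Psi a p q τ (post x.1 x.2.1 x.2.2, post' x.1 x.2.1 x.2.2) :=
    (Refl_Psi_cont a p q τ).comp (continuous_post.prodMk continuous_post')
  have I1 := Refl_int hk hc1 (fun x => hB _)
  have I2 := Refl_int hk hc2 (fun x => hB _)
  have h2 : ∫ x, k x.1 * k x.2.1 * (Refl_Psi a p q τ (x.1, x.2.1) -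
      Refl_Psi a p q τ (post x.1 x.2.1 x.2.2, post' x.1 x.2.1 x.2.2)) ∂(mu3 d) =
      (surf d).real univ * (NN a k p * NN a k q * dot τ (mN a k p - mN a k q)) := by
    rw [← Refl_before hk hC0 hC hp hq hNp0.ne' hNq0.ne' τ, ← sub_zero (∫ x, k x.1 * k x.2.1 *
      Refl_Psi a p q τ (x.1, x.2.1) ∂(mu3 d)), ← Refl_after hd hk hτ hB, ← integral_sub I1 I2]
    refine integral_congr_ae (Eventually.of_forall fun x => ?_)
    simp only
    ring
  rw [h2, abs_mul, abs_of_pos hs, abs_mul, abs_of_pos (mul_pos hNp0 hNq0)] at h1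
  have h3 : c₁ ^ 2 ≤ NN a k p * NN a k q := by
    rw [pow_two]
    exact mul_le_mul hNp hNq hc₁.le hNp0.le
  have h4 : (surf d).real univ * c₁ ^ 2 * |dot τ (mN a k p - mN a k q)| ≤
      D * (2 * d * C ^ 2 * len τ) := by
    refine le_trans ?_ h1
    rw [mul_assoc]
    exact mul_le_mul_of_nonneg_left (mul_le_mul_of_nonneg_right h3 (abs_nonneg _)) hs.le
  have hpos : 0 < (surf d).real univ * c₁ ^ 2 := by positivity
  have h5 : 2 * d * C ^ 2 / ((surf d).real univ * c₁ ^ 2) * D * len τ =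
      D * (2 * d * C ^ 2 * len τ) / ((surf d).real univ * c₁ ^ 2) := by
    ring
  rw [h5, le_div_iff₀ hpos]
  linarith

end Pool.Agent.H37.SB
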